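import Mathlib

/-!
# Linear algebra for the expansions of algebraic forms
-/

set_option autoImplicit false

open Finset Matrix

namespace Pool.Agent.H202.ST

variable {d r : ℕ}

/-- integral matrices as real ones -/
noncomputable def zr (d : ℕ) : Matrix (Fin d) (Fin d) ℤ →+* Matrix (Fin d) (Fin d) ℝ :=
  (Int.castRingHom ℝ).mapMatrix

/-- integral matrices as rational ones -/
noncomputable def zq (d : ℕ) : Matrix (Fin d) (Fin d) ℤ →+* Matrix (Fin d) (Fin d) ℚ :=
  (Int.castRingHom ℚ).mapMatrix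

/-- rational matrices as real ones -/
noncomputable def qr (d : ℕ) : Matrix (Fin d) (Fin d) ℚ →+* Matrix (Fin d) (Fin d) ℝ :=
  (algebraMap ℚ ℝ).mapMatrix

@[simp] lemma zr_apply (V : Matrix (Fin d) (Fin d) ℤ) (i j : Fin d) :
    zr d V i j = (V i j : ℝ) := by simp [zr]

@[simp] lemma zq_apply (V : Matrix (Fin d) (Fin d) ℤ) (i j : Fin d) :
    zq d V i j = (V i j : ℚ) := by simp [zq]

@[simp] lemma qr_apply (V : Matrix (Fin d) (Fin d) ℚ) (i j : Fin d) :
    qr d V i j = (V i j : ℝ) := by simp [qr]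

lemma qr_zq (V : Matrix (Fin d) (Fin d) ℤ) : qr d (zq d V) = zr d V := by
  ext i j; simp

lemma zq_injective : Function.Injective (zq d) := by
  intro A B h
  ext i j
  have := congrFun (congrFun h i) j
  simpa using this

lemma zr_det (V : Matrix (Fin d) (Fin d) ℤ) : (zr d V).det = (V.det : ℝ) := by
  have := (Int.castRingHom ℝ).map_det V
  exact this.symm

/-- a nonsingular square submatrix of a matrix with independent columns -/
lemma exists_minor' {F ι : Type*} [Field F] [Fintype ι] (P : Matrix ι (Fin r) F)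
    (hP : ∀ y, P *ᵥ y = 0 → y = 0) :
    ∃ f : Fin r → ι, (P.submatrix f id).det ≠ 0 := by
  classical
  have hspan : Submodule.span F (Set.range fun j => P j) = ⊤ := by
    by_contra hne
    obtain ⟨φ, hφ0, hφ⟩ := Submodule.exists_le_ker_of_lt_top _ (lt_top_iff_ne_top.2 hne)
    apply hφ0
    set y : Fin r → F := fun s => φ (Pi.single s 1) with hy
    have hrep : ∀ v : Fin r → F, φ v = v ⬝ᵥ y := by
      intro v
      have h1 : v = ∑ s, v s • (Pi.single s (1 : F) : Fin r → F) := by
        funext t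
        simp [Finset.sum_apply, Pi.single_apply]
      conv_lhs => rw [h1]
      rw [map_sum]
      simp only [map_smul, smul_eq_mul, dotProduct, hy]
    have hy0 : y = 0 := by
      apply hP
      funext j
      have h1 : P j ∈ LinearMap.ker φ := hφ (Submodule.subset_span ⟨j, rfl⟩)
      rw [LinearMap.mem_ker, hrep] at h1
      exact h1
    ext s
    have : φ (Pi.single s 1) = 0 := congrFun hy0 s
    simpa using this
  obtain ⟨κ, a, ha, hspan', hli⟩ := exists_linearIndependent' F (fun j => P j)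
  have hbas := Module.Basis.mk hli (by rw [hspan', hspan])
  set e : κ ≃ Fin r := hbas.indexEquiv (Pi.basisFun F (Fin r)) with he
  refine ⟨a ∘ e.symm, ?_⟩
  have h1 : LinearIndependent F (P.submatrix (a ∘ e.symm) id).row := by
    have := hli.comp e.symm e.symm.injective
    exact this
  have h2 := (Matrix.linearIndependent_rows_iff_isUnit.1 h1)
  exact ((Matrix.isUnit_iff_isUnit_det _).1 h2).ne_zero

/-- the determinant of a matrix whose rows are bounded -/
lemma det_bound' {n : Type*} [Fintype n] [DecidableEq n] (M : Matrix n n ℝ) (β : n → ℝ)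
    (h : ∀ s t, |M s t| ≤ β s) : |M.det| ≤ ((Fintype.card n).factorial : ℝ) * ∏ s, β s := by
  rw [det_apply]
  refine (Finset.abs_sum_le_sum_abs _ _).trans ?_
  have h1 : ∀ σ ∈ (Finset.univ : Finset (Equiv.Perm n)),
      |Equiv.Perm.sign σ • ∏ i, M (σ i) i| ≤ ∏ s, β s := by
    intro σ _
    have h2 : |Equiv.Perm.sign σ • ∏ i, M (σ i) i| = ∏ i, |M (σ i) i| := by
      rw [← Finset.abs_prod]
      rcases Int.units_eq_one_or (Equiv.Perm.sign σ) with h | h <;> simp [h]
    rw [h2, ← Equiv.prod_comp σ β]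
    exact Finset.prod_le_prod (fun i _ => abs_nonneg _) fun i _ => h _ _
  refine (Finset.sum_le_sum h1).trans (le_of_eq ?_)
  rw [Finset.sum_const, Finset.card_univ, Fintype.card_perm, nsmul_eq_mul]

/-- Cauchy–Binet, without collecting terms -/
lemma det_mul_expand {ι : Type*} [Fintype ι] [DecidableEq ι] (Y : Matrix (Fin r) ι ℝ)
    (Cf : Matrix ι (Fin r) ℝ) :
    (Y * Cf).det = ∑ J : Fin r → ι, (∏ l, Cf (J l) l) * (Y.submatrix id J).det := by
  have h1 : (Y * Cf)ᵀ = fun l => ∑ p, Cf p l • Yᵀ p := by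
    ext l k
    simp [Matrix.mul_apply, Finset.sum_apply, mul_comm]
  have h2 := (Matrix.detRowAlternating (R := ℝ) (n := Fin r)).toMultilinearMap.map_sum
    (fun (l : Fin r) (p : ι) => Cf p l • Yᵀ p)
  have h3 : (Y * Cf).det = (Matrix.detRowAlternating (R := ℝ) (n := Fin r)).toMultilinearMap
      (fun l => ∑ p, Cf p l • Yᵀ p) := by
    rw [← Matrix.det_transpose, h1]
    rfl
  rw [h3, h2]
  refine Finset.sum_congr rfl fun J _ => ?_
  rw [MultilinearMap.map_smul_univ, smul_eq_mul]
  congr 1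
  rw [← Matrix.det_transpose]
  rfl

/-- a large minor of the first factor -/
lemma exists_large_minor {ι : Type*} [Fintype ι] [DecidableEq ι] {K : ℝ} (hK : 0 ≤ K)
    (Y : Matrix (Fin r) ι ℝ) (Cf : Matrix ι (Fin r) ℝ) (hCf : ∀ p l, |Cf p l| ≤ K)
    (h1 : 1 ≤ |(Y * Cf).det|) :
    ∃ J : Fin r → ι, 1 ≤ (Fintype.card (Fin r → ι) : ℝ) * K ^ r * |(Y.submatrix id J).det| := by
  have hne : (Finset.univ : Finset (Fin r → ι)).Nonempty := by
    by_contra hcon
    rw [Finset.not_nonempty_iff_eq_empty] at hcon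
    rw [det_mul_expand, hcon, Finset.sum_empty, abs_zero] at h1
    linarith
  obtain ⟨J, -, hJ⟩ := Finset.exists_max_image Finset.univ
    (fun J : Fin r → ι => |(Y.submatrix id J).det|) hne
  refine ⟨J, h1.trans ?_⟩
  rw [det_mul_expand]
  refine (Finset.abs_sum_le_sum_abs _ _).trans ?_
  have h2 : ∀ J' ∈ (Finset.univ : Finset (Fin r → ι)),
      |(∏ l, Cf (J' l) l) * (Y.submatrix id J').det| ≤ K ^ r * |(Y.submatrix id J).det| := by
    intro J' _
    rw [abs_mul, Finset.abs_prod]
    refine mul_le_mul ?_ (hJ J' (Finset.mem_univ _)) (abs_nonneg _) (by positivity)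
    refine (Finset.prod_le_prod (fun _ _ => abs_nonneg _) fun l _ => hCf (J' l) l).trans ?_
    rw [Finset.prod_const, Finset.card_univ, Fintype.card_fin]
  refine (Finset.sum_le_sum h2).trans (le_of_eq ?_)
  rw [Finset.sum_const, Finset.card_univ, nsmul_eq_mul]
  ring

/-- the entries of the inverse of a bounded matrix -/
lemma inv_bound {A : Matrix (Fin d) (Fin d) ℝ} {C : ℝ} (hA : ∀ i j, |A i j| ≤ C) (hC : 1 ≤ C)
    (i j : Fin d) : |A⁻¹ i j| ≤ |A.det|⁻¹ * ((d.factorial : ℝ) * C ^ d) := by
  rw [Matrix.inv_def, Matrix.smul_apply, smul_eq_mul, abs_mul, Ring.inverse_eq_inv', abs_inv]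
  refine mul_le_mul_of_nonneg_left ?_ (by positivity)
  rw [Matrix.adjugate_apply]
  refine (det_bound' _ (fun _ => C) ?_).trans ?_
  · intro s t
    rw [Matrix.updateRow_apply]
    split_ifs with h
    · rw [Pi.single_apply]
      split_ifs
      · rw [abs_one]; exact hC
      · rw [abs_zero]; linarith
    · exact hA s t
  · rw [Finset.prod_const, Finset.card_univ, Fintype.card_fin]

/-- the exchange -/
lemma exchange (A : Matrix (Fin r) (Fin r) ℝ) (hA : A.det ≠ 0) (w : Fin r → ℝ) (hw : w ≠ 0) :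
    ∃ l, (A.updateCol l w).det ≠ 0 := by
  by_contra hcon
  push Not at hcon
  apply hw
  have h1 : Matrix.cramer A w = 0 := by
    funext l
    rw [Matrix.cramer_apply]
    exact hcon l
  have h2 := Matrix.mulVec_cramer A w
  rw [h1, Matrix.mulVec_zero] at h2
  rcases smul_eq_zero.1 h2.symm with h3 | h3
  · exact absurd h3 hA
  · exact h3

end Pool.Agent.H202.ST
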