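import Mathlib
import Pool.Agent.H202.ST.Lin

/-!
# A minor which is not contracted
-/

set_option autoImplicit false

open Finset Matrix

namespace Pool.Agent.H202.ST

variable {d r : ℕ}

/-- the matrix `M` moved by `exp x` on the left and `V` on the right -/
noncomputable def mv (M : Matrix (Fin d) (Fin d) ℝ) (x : Fin d → ℝ)
    (V : Matrix (Fin d) (Fin d) ℤ) : Matrix (Fin d) (Fin d) ℝ :=
  Matrix.diagonal (fun i => Real.exp (x i)) * M * zr d V

lemma mv_det (M : Matrix (Fin d) (Fin d) ℝ) {x : Fin d → ℝ} (hx : ∑ i, x i = 0)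
    {V : Matrix (Fin d) (Fin d) ℤ} (hV : IsUnit V.det) : |(mv M x V).det| = |M.det| := by
  unfold mv
  rw [det_mul, det_mul, det_diagonal, ← Real.exp_sum, hx, Real.exp_zero, one_mul, abs_mul, zr_det]
  rcases Int.isUnit_iff.1 hV with h | h <;> simp [h]

lemma diag_exp_mul (x : Fin d → ℝ) : Matrix.diagonal (fun i => Real.exp (-x i)) *
    Matrix.diagonal (fun i => Real.exp (x i)) = (1 : Matrix (Fin d) (Fin d) ℝ) := by
  rw [Matrix.diagonal_mul_diagonal]
  have : (fun i => Real.exp (-x i) * Real.exp (x i)) = fun _ => (1 : ℝ) := by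
    funext i
    rw [← Real.exp_add, neg_add_cancel, Real.exp_zero]
  rw [this, Matrix.diagonal_one]

lemma diag_exp_mul' (x : Fin d → ℝ) : Matrix.diagonal (fun i => Real.exp (x i)) *
    Matrix.diagonal (fun i => Real.exp (-x i)) = (1 : Matrix (Fin d) (Fin d) ℝ) := by
  rw [Matrix.diagonal_mul_diagonal]
  have : (fun i => Real.exp (x i) * Real.exp (-x i)) = fun _ => (1 : ℝ) := by
    funext i
    rw [← Real.exp_add, add_neg_cancel, Real.exp_zero]
  rw [this, Matrix.diagonal_one]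

/-- conjugation with `M` -/
noncomputable def cj (M X : Matrix (Fin d) (Fin d) ℝ) : Matrix (Fin d) (Fin d) ℝ := M * X * M⁻¹

/-- the basic identity -/
lemma conj_eq {M : Matrix (Fin d) (Fin d) ℝ} (hM : IsUnit M.det) (x y : Fin d → ℝ)
    {Vn Vm : Matrix (Fin d) (Fin d) ℤ} (hVn : IsUnit Vn.det)
    (X : Matrix (Fin d) (Fin d) ℝ) :
    (zr d Vn)⁻¹ * X * zr d Vm = (mv M x Vn)⁻¹ *
      (Matrix.diagonal (fun i => Real.exp (x i)) * cj M X *
        Matrix.diagonal (fun i => Real.exp (-y i))) * mv M y Vm := by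
  have hzn : IsUnit (zr d Vn).det := by
    rw [zr_det]; exact hVn.map (Int.castRingHom ℝ)
  have hDx : IsUnit (Matrix.diagonal (fun i => Real.exp (x i)) : Matrix (Fin d) (Fin d) ℝ).det := by
    rw [det_diagonal, ← Real.exp_sum]
    exact isUnit_iff_ne_zero.2 (Real.exp_ne_zero _)
  unfold mv cj
  rw [Matrix.mul_inv_rev, Matrix.mul_inv_rev]
  have e1 : (Matrix.diagonal (fun i => Real.exp (x i)) : Matrix (Fin d) (Fin d) ℝ)⁻¹ *
      Matrix.diagonal (fun i => Real.exp (x i)) = 1 := Matrix.nonsing_inv_mul _ hDx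
  have e2 := diag_exp_mul y
  have e3 : M⁻¹ * M = 1 := Matrix.nonsing_inv_mul _ hM
  calc (zr d Vn)⁻¹ * X * zr d Vm
      = (zr d Vn)⁻¹ * (M⁻¹ * M) * X * (M⁻¹ * M) * zr d Vm := by
        rw [e3, Matrix.mul_one, Matrix.mul_one]
    _ = (zr d Vn)⁻¹ * M⁻¹ * ((Matrix.diagonal (fun i => Real.exp (x i)) :
          Matrix (Fin d) (Fin d) ℝ)⁻¹ * Matrix.diagonal (fun i => Real.exp (x i))) * M * X * M⁻¹ *
          (Matrix.diagonal (fun i => Real.exp (-y i)) *
            Matrix.diagonal (fun i => Real.exp (y i))) * M * zr d Vm := by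
        rw [e1, e2, Matrix.mul_one, Matrix.mul_one]
        simp only [Matrix.mul_assoc]
    _ = _ := by simp only [Matrix.mul_assoc]

/-- The minors of the conjugates of a basis `v` of a rational space which are not contracted. -/
theorem stepA {M : Matrix (Fin d) (Fin d) ℝ} (hM : M.det ≠ 0) (C : ℝ)
    (v : Fin r → Matrix (Fin d) (Fin d) ℤ) (hv : LinearIndependent ℚ (fun k => zq d (v k))) :
    ∃ c : ℝ, 0 < c ∧ ∀ (x y : Fin d → ℝ) (Vn Vm : Matrix (Fin d) (Fin d) ℤ),
      ∑ i, x i = 0 → ∑ i, y i = 0 → IsUnit Vn.det → IsUnit Vm.det →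
      (∀ i j, |mv M x Vn i j| ≤ C) → (∀ i j, |mv M y Vm i j| ≤ C) →
      ∃ J : Fin r → Fin d × Fin d,
        c ≤ Real.exp (∑ l, (x (J l).1 - y (J l).2)) *
          |(Matrix.of fun k l => cj M (zr d (v k)) (J l).1 (J l).2 :
            Matrix (Fin r) (Fin r) ℝ).det| := by
  classical
  have hMu : IsUnit M.det := isUnit_iff_ne_zero.2 hM
  set C1 : ℝ := max C 1 with hC1
  have hC11 : 1 ≤ C1 := le_max_right _ _
  set K : ℝ := |M.det|⁻¹ * ((d.factorial : ℝ) * C1 ^ d) * C1 with hK
  have hK0 : 0 < K := by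
    have : 0 < |M.det| := abs_pos.2 hM
    positivity
  set B : ℝ := (Fintype.card (Fin r → Fin d × Fin d) : ℝ) * K ^ r with hB
  have hB0 : 0 ≤ B := by positivity
  refine ⟨(B + 1)⁻¹, by positivity, fun x y Vn Vm hx hy hVn hVm hbn hbm => ?_⟩
  -- the integral matrices
  set X : Fin r → Matrix (Fin d) (Fin d) ℤ := fun k => Vn⁻¹ * v k * Vm with hX
  -- an integral minor
  set P : Matrix (Fin d × Fin d) (Fin r) ℚ := fun p k => zq d (X k) p.1 p.2 with hP
  obtain ⟨f, hf⟩ := exists_minor' P (by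
    intro z hz
    have h1 : ∑ k, z k • zq d (X k) = 0 := by
      ext i j
      have h2 := congrFun hz (i, j)
      rw [Matrix.mulVec, dotProduct] at h2
      rw [Matrix.sum_apply]
      simp only [Matrix.smul_apply, smul_eq_mul, Matrix.zero_apply]
      simp only [hP, Pi.zero_apply] at h2
      rw [← h2]
      exact Finset.sum_congr rfl fun k _ => mul_comm _ _
    have h2 : zq d Vn * (∑ k, z k • zq d (X k)) * zq d Vm⁻¹ = ∑ k, z k • zq d (v k) := by
      rw [Finset.mul_sum, Finset.sum_mul]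
      refine Finset.sum_congr rfl fun k _ => ?_
      rw [Matrix.mul_smul, Matrix.smul_mul]
      congr 1
      rw [hX, ← map_mul, ← map_mul]
      congr 1
      calc Vn * (Vn⁻¹ * v k * Vm) * Vm⁻¹ = (Vn * Vn⁻¹) * v k * (Vm * Vm⁻¹) := by
            simp only [Matrix.mul_assoc]
        _ = v k := by
            rw [Matrix.mul_nonsing_inv _ hVn, Matrix.mul_nonsing_inv _ hVm, Matrix.one_mul,
              Matrix.mul_one]
    rw [h1, Matrix.mul_zero, Matrix.zero_mul] at h2
    have h3 := Fintype.linearIndependent_iff.1 hv z h2.symm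
    funext k
    exact h3 k)
  -- the real matrix of the minor
  set Y : Matrix (Fin r) (Fin d × Fin d) ℝ := fun k p =>
    Real.exp (x p.1) * cj M (zr d (v k)) p.1 p.2 * Real.exp (-y p.2) with hY
  set Cf : Matrix (Fin d × Fin d) (Fin r) ℝ := fun p l =>
    (mv M x Vn)⁻¹ (f l).1 p.1 * mv M y Vm p.2 (f l).2 with hCf
  have hCfb : ∀ p l, |Cf p l| ≤ K := by
    intro p l
    rw [hCf]
    simp only
    rw [abs_mul]
    have h1 := inv_bound (A := mv M x Vn) (C := C1) (fun i j => (hbn i j).trans (le_max_left _ _))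
      hC11 (f l).1 p.1
    rw [mv_det M hx hVn] at h1
    have h2 : |mv M y Vm p.2 (f l).2| ≤ C1 := (hbm _ _).trans (le_max_left _ _)
    exact mul_le_mul h1 h2 (abs_nonneg _) (by positivity)
  have hinvn : zr d Vn⁻¹ = (zr d Vn)⁻¹ := by
    symm
    apply Matrix.inv_eq_right_inv
    rw [← map_mul, Matrix.mul_nonsing_inv _ hVn, map_one]
  have hXr : ∀ k, zr d (X k) = (mv M x Vn)⁻¹ *
      (Matrix.diagonal (fun i => Real.exp (x i)) * cj M (zr d (v k)) *
        Matrix.diagonal (fun i => Real.exp (-y i))) * mv M y Vm := by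
    intro k
    rw [hX, map_mul, map_mul, hinvn]
    exact conj_eq hMu x y hVn _
  have hprod : Y * Cf = (Matrix.of fun k l => zr d (X k) (f l).1 (f l).2) := by
    ext k l
    rw [Matrix.of_apply, hXr k, Matrix.mul_apply, Matrix.mul_apply, Fintype.sum_prod_type,
      Finset.sum_comm]
    refine Finset.sum_congr rfl fun j _ => ?_
    rw [Matrix.mul_apply, Finset.sum_mul]
    refine Finset.sum_congr rfl fun i _ => ?_
    rw [hY, hCf]
    simp only
    rw [Matrix.mul_diagonal, Matrix.diagonal_mul]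
    ring
  have hdetZ : (Y * Cf).det = (((Matrix.of fun k l => X k (f l).1 (f l).2 :
      Matrix (Fin r) (Fin r) ℤ).det : ℤ) : ℝ) := by
    rw [hprod, Int.cast_det]
    congr 1
  have hdetQ : (P.submatrix f id).det = (((Matrix.of fun k l => X k (f l).1 (f l).2 :
      Matrix (Fin r) (Fin r) ℤ).det : ℤ) : ℚ) := by
    rw [Int.cast_det, ← Matrix.det_transpose]
    congr 1
  have hne : (Matrix.of fun k l => X k (f l).1 (f l).2 : Matrix (Fin r) (Fin r) ℤ).det ≠ 0 := by
    intro h0
    rw [hdetQ, h0] at hf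
    exact hf (by simp)
  have h1 : 1 ≤ |(Y * Cf).det| := by
    rw [hdetZ, ← Int.cast_abs]
    exact_mod_cast Int.one_le_abs hne
  obtain ⟨J, hJ⟩ := exists_large_minor hK0.le Y Cf hCfb h1
  refine ⟨J, ?_⟩
  have hdetY : (Y.submatrix id J).det = Real.exp (∑ l, (x (J l).1 - y (J l).2)) *
      (Matrix.of fun k l => cj M (zr d (v k)) (J l).1 (J l).2 :
            Matrix (Fin r) (Fin r) ℝ).det := by
    have h2 : Y.submatrix id J = Matrix.of fun k l => Real.exp (x (J l).1 - y (J l).2) *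
        (Matrix.of fun k l => cj M (zr d (v k)) (J l).1 (J l).2 :
            Matrix (Fin r) (Fin r) ℝ) k l := by
      ext k l
      have h3 : Y.submatrix id J k l = Real.exp (x (J l).1) *
        cj M (zr d (v k)) (J l).1 (J l).2 * Real.exp (-y (J l).2) := rfl
      rw [h3, Matrix.of_apply, Matrix.of_apply, sub_eq_add_neg, Real.exp_add]
      ring
    rw [h2, Matrix.det_mul_row, Real.exp_sum]
  rw [hdetY, abs_mul, abs_of_pos (Real.exp_pos _)] at hJ
  set T : ℝ := Real.exp (∑ l, (x (J l).1 - y (J l).2)) *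
      |(Matrix.of fun k l => cj M (zr d (v k)) (J l).1 (J l).2 :
            Matrix (Fin r) (Fin r) ℝ).det| with hT
  have hT0 : 0 ≤ T := by positivity
  rw [inv_le_iff_one_le_mul₀ (by positivity)]
  calc (1 : ℝ) ≤ B * T := hJ
    _ ≤ (B + 1) * T := by nlinarith
    _ = T * (B + 1) := mul_comm _ _

end Pool.Agent.H202.ST
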