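import Mathlib
import Pool.Graph.R_seed8.TH419.WI.Rel

/-!
# The subspace theorem for real algebraic linear forms, parametric version
-/

set_option autoImplicit false

open Finset Filter Topology

namespace Pool.Agent.H202.ST

open Pool.Agent.TH419.WI

lemma mon0 (g e : Fin 0 → ℕ) : mon g e = 1 := by simp [mon]

/-- The subspace theorem for independent real algebraic forms `M l` at integer points `z t`, if the
sizes `A t l` of the forms have a product at most `exp (- γ N t)`: a rational relation holds for
infinitely many `t`. -/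
theorem sub_alg {n : ℕ} (hn : 1 ≤ n) (M : Matrix (Fin n) (Fin n) ℝ)
    (halg : ∀ i j, IsAlgebraic ℚ (M i j)) (hdetM : M.det ≠ 0)
    (c γ : ℝ) (hc : 0 ≤ c) (hγ : 0 < γ) (N : ℕ → ℝ) (hN : Tendsto N atTop atTop)
    (A : ℕ → Fin n → ℝ) (z : ℕ → Fin n → ℤ)
    (h2 : ∀ᶠ t in atTop, ∀ l, 0 < A t l)
    (h3 : ∀ᶠ t in atTop, ∀ l, |Real.log (A t l)| ≤ c * N t)
    (h4 : ∀ᶠ t in atTop, ∑ l, Real.log (A t l) + γ * N t ≤ 0)
    (h5 : ∀ᶠ t in atTop, z t ≠ 0)
    (h6 : ∀ᶠ t in atTop, ∀ l, |∑ j, M l j * (z t j : ℝ)| ≤ A t l) :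
    ∃ y : Fin n → ℤ, y ≠ 0 ∧ ∃ᶠ t in atTop, ∑ l, y l * z t l = 0 := by
  classical
  -- the number field
  set F : IntermediateField ℚ ℝ :=
    IntermediateField.adjoin ℚ (Set.range fun p : Fin n × Fin n => M p.1 p.2) with hFdef
  have hF : FiniteDimensional ℚ F := by
    apply IntermediateField.finiteDimensional_adjoin
    rintro x ⟨i, rfl⟩
    exact (halg i.1 i.2).isIntegral
  have : NumberField F := { to_charZero := inferInstance, to_finiteDimensional := hF }
  let c' : Fin n × Fin n → F := fun i =>
    ⟨M i.1 i.2, IntermediateField.subset_adjoin ℚ _ ⟨i, rfl⟩⟩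
  obtain ⟨Nn, hNn⟩ := IsLocalization.exist_integer_multiples_of_finite
    (nonZeroDivisors (NumberField.RingOfIntegers F)) c'
  have hN0 : (Nn : NumberField.RingOfIntegers F) ≠ 0 := nonZeroDivisors.ne_zero Nn.2
  have hN' : ∀ i, ∃ M : NumberField.RingOfIntegers F,
      algebraMap (NumberField.RingOfIntegers F) F M
        = algebraMap (NumberField.RingOfIntegers F) F (Nn : NumberField.RingOfIntegers F)
          * c' i := by
    intro i
    obtain ⟨M, hM⟩ := hNn i
    refine ⟨M, ?_⟩
    rw [hM, Algebra.smul_def]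
  choose d hd using hN'
  have hinj : Function.Injective (algebraMap (NumberField.RingOfIntegers F) F) :=
    IsFractionRing.injective _ _
  set ψ : NumberField.RingOfIntegers F →+* ℝ :=
    (algebraMap F ℝ).comp (algebraMap (NumberField.RingOfIntegers F) F) with hψ
  set φ : NumberField.RingOfIntegers F →+* ℂ := Complex.ofRealHom.comp ψ with hφ
  set ν : ℝ := ψ (Nn : NumberField.RingOfIntegers F) with hν
  have hψinj : Function.Injective ψ := (algebraMap F ℝ).injective.comp hinj
  have hν0 : ν ≠ 0 := by
    intro h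
    apply hN0
    apply hψinj
    rw [map_zero]
    exact h
  have hνp : 0 < |ν| := abs_pos.2 hν0
  have hψd : ∀ i, ψ (d i) = ν * M i.1 i.2 := by
    intro i
    have h1 := congrArg (algebraMap F ℝ) (hd i)
    rw [map_mul] at h1
    exact h1
  set M0 : Matrix (Fin n) (Fin n) (NumberField.RingOfIntegers F) := fun i j => d (i, j) with hM0
  have hdet : M0.det ≠ 0 := by
    intro h0
    have h1 : ψ M0.det = 0 := by rw [h0, map_zero]
    rw [RingHom.map_det] at h1
    have h2 : ψ.mapMatrix M0 = ν • M := by
      ext i j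
      simp only [RingHom.mapMatrix_apply, Matrix.map_apply, Matrix.smul_apply, smul_eq_mul]
      exact hψd (i, j)
    rw [h2, Matrix.det_smul] at h1
    rcases mul_eq_zero.1 h1 with h3 | h3
    · exact (pow_ne_zero _ hν0) h3
    · exact hdetM h3
  have hre : ∀ z, ‖φ z‖ = |ψ z| := by
    intro z
    rw [hφ, RingHom.comp_apply, Complex.ofRealHom_eq_coe, Complex.norm_real, Real.norm_eq_abs]
  have hNe1 : ∀ᶠ t in atTop, 1 ≤ N t := hN.eventually_ge_atTop 1
  have hNe2 : ∀ᶠ t in atTop, (n : ℝ) * Real.log |ν| ≤ γ / 2 * N t := by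
    have h1 : Tendsto (fun t => γ / 2 * N t) atTop atTop := hN.const_mul_atTop (by positivity)
    exact h1.eventually_ge_atTop _
  have key := subDiag (NumberField.RingOfIntegers F) φ (k := 0) hn (fun _ => 1) (fun _ => one_pos)
    M0 hdet
    (fun i j => by
      rw [hφ, RingHom.comp_apply]
      exact Complex.ofReal_im _)
    (c + |Real.log (|ν|)| + 1) (γ / 2) (by
      have : 0 ≤ |Real.log (|ν|)| := abs_nonneg _
      linarith) (by positivity) N hN
    (fun _ _ v => 0)
    (fun t l => |ν| * A t l)
    z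
    (by
      filter_upwards [hNe1] with t ht
      simp only [mon0, Int.cast_one, Real.log_one, Finset.sum_const_zero]
      have : 0 ≤ |Real.log (|ν|)| := abs_nonneg _
      have : 0 ≤ N t := by linarith
      positivity)
    (by
      filter_upwards [h2] with t ht l
      exact mul_pos hνp (ht l))
    (by
      filter_upwards [h2, h3, hNe1] with t ht ht3 ht1 l
      rw [Real.log_mul hνp.ne' (ht l).ne']
      refine (abs_add_le _ _).trans ?_
      have h7 := ht3 l
      have h8 : 0 ≤ |Real.log (|ν|)| := abs_nonneg _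
      nlinarith)
    (by
      filter_upwards [h2, h4, hNe1, hNe2] with t ht ht4 ht1 ht2
      simp only [mon0, Int.cast_one, Real.log_one, Finset.sum_const_zero]
      have h7 : ∀ l, Real.log (|ν| * A t l) = Real.log |ν| + Real.log (A t l) := fun l =>
        Real.log_mul hνp.ne' (ht l).ne'
      simp only [h7]
      rw [Finset.sum_add_distrib, Finset.sum_const, Finset.card_univ, Fintype.card_fin,
        nsmul_eq_mul]
      linarith)
    h5
    (by
      filter_upwards [h6] with t ht l
      simp only [mon0, one_mul]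
      rw [hre, map_sum]
      have h7 : ∑ j, ψ (M0 l j * ((z t j : ℤ) : NumberField.RingOfIntegers F)) =
          ν * ∑ j, M l j * z t j := by
        rw [Finset.mul_sum]
        refine Finset.sum_congr rfl fun j _ => ?_
        rw [map_mul, map_intCast, show M0 l j = d (l, j) from rfl, hψd]
        ring
      rw [h7, abs_mul]
      exact mul_le_mul_of_nonneg_left (ht l) (abs_nonneg _))
  obtain ⟨y, hy, hfr⟩ := key
  refine ⟨y, hy, hfr.mono fun t ht => ?_⟩
  rw [← ht]
  refine Finset.sum_congr rfl fun l _ => ?_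
  rw [mon0, one_mul]

end Pool.Agent.H202.ST
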