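import Mathlib
import Pool.Agent.H202.ST.StepA
import Pool.Agent.H202.ST.Sub

/-!
# The application of the subspace theorem
-/

set_option autoImplicit false

open Finset Matrix Filter Topology

namespace Pool.Agent.H202.ST

variable {d r : ℕ}

lemma alg_inv {M : Matrix (Fin d) (Fin d) ℝ} (hM : M.det ≠ 0)
    (halg : ∀ i j, IsAlgebraic ℚ (M i j)) (i j : Fin d) : IsAlgebraic ℚ (M⁻¹ i j) := by
  classical
  set F := algebraicClosure ℚ ℝ with hF
  set M' : Matrix (Fin d) (Fin d) F := fun i j => ⟨M i j, (mem_algebraicClosure_iff).2 (halg i j)⟩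
    with hM'
  have h1 : (algebraMap F ℝ).mapMatrix M' = M := by
    ext i j
    rfl
  have hdet : M'.det ≠ 0 := by
    intro h0
    apply hM
    rw [← h1, ← RingHom.map_det, h0, map_zero]
  have h2 : M * (algebraMap F ℝ).mapMatrix M'⁻¹ = 1 := by
    rw [← h1, ← map_mul, Matrix.mul_nonsing_inv _ (isUnit_iff_ne_zero.2 hdet), map_one]
  have h3 : M⁻¹ = (algebraMap F ℝ).mapMatrix M'⁻¹ := Matrix.inv_eq_right_inv h2
  rw [h3]
  exact (mem_algebraicClosure_iff).1 (M'⁻¹ i j).2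

lemma alg_sum {ι : Type*} (s : Finset ι) {f : ι → ℝ} (h : ∀ i ∈ s, IsAlgebraic ℚ (f i)) :
    IsAlgebraic ℚ (∑ i ∈ s, f i) := by
  classical
  rw [← mem_algebraicClosure_iff]
  exact sum_mem fun i hi => (mem_algebraicClosure_iff).2 (h i hi)

lemma alg_cj {M : Matrix (Fin d) (Fin d) ℝ} (hM : M.det ≠ 0)
    (halg : ∀ i j, IsAlgebraic ℚ (M i j)) (X : Matrix (Fin d) (Fin d) ℤ) (i j : Fin d) :
    IsAlgebraic ℚ (cj M (zr d X) i j) := by
  unfold cj
  rw [Matrix.mul_apply]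
  refine alg_sum _ fun k _ => IsAlgebraic.mul ?_ (alg_inv hM halg k j)
  rw [Matrix.mul_apply]
  refine alg_sum _ fun l _ => IsAlgebraic.mul (halg i l) ?_
  rw [zr_apply]
  exact isAlgebraic_algebraMap (A := ℝ) ((X l k : ℤ) : ℚ) |> fun h => by simpa using h

/-- the size of the conjugate of a transition -/
lemma cj_bound {M : Matrix (Fin d) (Fin d) ℝ} (hM : M.det ≠ 0) (C : ℝ) :
    ∃ K : ℝ, 0 < K ∧ ∀ (x y : Fin d → ℝ) (Vn Vm δ : Matrix (Fin d) (Fin d) ℤ),
      ∑ i, x i = 0 → ∑ i, y i = 0 → IsUnit Vn.det → IsUnit Vm.det →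
      (∀ i j, |mv M x Vn i j| ≤ C) → (∀ i j, |mv M y Vm i j| ≤ C) → Vn = δ * Vm →
      ∀ i j, |cj M (zr d δ) i j| ≤ K * Real.exp (-x i + y j) := by
  classical
  have hMu : IsUnit M.det := isUnit_iff_ne_zero.2 hM
  set C1 : ℝ := max C 1 with hC1
  have hC11 : 1 ≤ C1 := le_max_right _ _
  set K : ℝ := d * (C1 * (|M.det|⁻¹ * ((d.factorial : ℝ) * C1 ^ d))) + 1 with hK
  have hM0 : 0 < |M.det| := abs_pos.2 hM
  refine ⟨K, by positivity, fun x y Vn Vm δ hx hy hVn hVm hbn hbm hδ i j => ?_⟩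
  have hzm : IsUnit (zr d Vm).det := by
    rw [zr_det]; exact hVm.map (Int.castRingHom ℝ)
  have h1 : Matrix.diagonal (fun i => Real.exp (x i)) * cj M (zr d δ) *
      Matrix.diagonal (fun i => Real.exp (-y i)) = mv M x Vn * (mv M y Vm)⁻¹ := by
    have hDy : (Matrix.diagonal (fun i => Real.exp (y i)) : Matrix (Fin d) (Fin d) ℝ)⁻¹ =
        Matrix.diagonal (fun i => Real.exp (-y i)) := Matrix.inv_eq_right_inv (diag_exp_mul' y)
    unfold mv cj
    rw [Matrix.mul_inv_rev, Matrix.mul_inv_rev, hDy, hδ, map_mul]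
    calc Matrix.diagonal (fun i => Real.exp (x i)) * (M * zr d δ * M⁻¹) *
          Matrix.diagonal (fun i => Real.exp (-y i))
        = Matrix.diagonal (fun i => Real.exp (x i)) * M * zr d δ * 1 * M⁻¹ *
          Matrix.diagonal (fun i => Real.exp (-y i)) := by
          rw [Matrix.mul_one]; simp only [Matrix.mul_assoc]
      _ = Matrix.diagonal (fun i => Real.exp (x i)) * M * zr d δ * (zr d Vm * (zr d Vm)⁻¹) * M⁻¹ *
          Matrix.diagonal (fun i => Real.exp (-y i)) := by rw [Matrix.mul_nonsing_inv _ hzm]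
      _ = _ := by simp only [Matrix.mul_assoc]
  have h2 := congrFun (congrFun h1 i) j
  rw [Matrix.mul_diagonal, Matrix.diagonal_mul, Matrix.mul_apply] at h2
  have h3 : |∑ k, mv M x Vn i k * (mv M y Vm)⁻¹ k j| ≤ K := by
    refine (Finset.abs_sum_le_sum_abs _ _).trans ?_
    have h4 : ∀ k ∈ (Finset.univ : Finset (Fin d)), |mv M x Vn i k * (mv M y Vm)⁻¹ k j| ≤
        C1 * (|M.det|⁻¹ * ((d.factorial : ℝ) * C1 ^ d)) := by
      intro k _
      rw [abs_mul]
      have h5 := inv_bound (A := mv M y Vm) (C := C1)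
        (fun i j => (hbm i j).trans (le_max_left _ _)) hC11 k j
      rw [mv_det M hy hVm] at h5
      exact mul_le_mul ((hbn i k).trans (le_max_left _ _)) h5 (abs_nonneg _) (by positivity)
    refine (Finset.sum_le_sum h4).trans ?_
    rw [Finset.sum_const, Finset.card_univ, Fintype.card_fin, nsmul_eq_mul]
    linarith
  rw [← h2] at h3
  have h6 : |Real.exp (x i) * cj M (zr d δ) i j * Real.exp (-y j)| =
      |cj M (zr d δ) i j| * Real.exp (x i - y j) := by
    rw [abs_mul, abs_mul, abs_of_pos (Real.exp_pos _), abs_of_pos (Real.exp_pos _),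
      sub_eq_add_neg, Real.exp_add]
    ring
  rw [h6] at h3
  calc |cj M (zr d δ) i j| = |cj M (zr d δ) i j| * Real.exp (x i - y j) *
        Real.exp (-x i + y j) := by
        rw [mul_assoc, ← Real.exp_add, show x i - y j + (-x i + y j) = 0 by ring, Real.exp_zero,
          mul_one]
    _ ≤ K * Real.exp (-x i + y j) := mul_le_mul_of_nonneg_right h3 (Real.exp_pos _).le

lemma cj_sum {M : Matrix (Fin d) (Fin d) ℝ} {v : Fin r → Matrix (Fin d) (Fin d) ℤ}
    {z : Fin r → ℤ} {D : ℤ} {δ : Matrix (Fin d) (Fin d) ℤ} (h : ∑ k, z k • v k = D • δ)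
    (i j : Fin d) : ∑ k, cj M (zr d (v k)) i j * (z k : ℝ) = D * cj M (zr d δ) i j := by
  have h1 : ∑ k, (z k : ℝ) • cj M (zr d (v k)) = (D : ℝ) • cj M (zr d δ) := by
    have h2 := congrArg (fun X => cj M (zr d X)) h
    have h3 : cj M (zr d (∑ k, z k • v k)) = ∑ k, (z k : ℝ) • cj M (zr d (v k)) := by
      unfold cj
      rw [map_sum, Finset.mul_sum, Finset.sum_mul]
      refine Finset.sum_congr rfl fun k _ => ?_
      rw [map_zsmul, ← Int.cast_smul_eq_zsmul ℝ (z k) (zr d (v k)), Matrix.mul_smul,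
        Matrix.smul_mul]
    have h4 : cj M (zr d (D • δ)) = (D : ℝ) • cj M (zr d δ) := by
      unfold cj
      rw [map_zsmul, ← Int.cast_smul_eq_zsmul ℝ D (zr d δ), Matrix.mul_smul, Matrix.smul_mul]
    rw [h3, h4] at h2
    exact h2
  have h2 := congrFun (congrFun h1 i) j
  rw [Matrix.sum_apply] at h2
  simp only [Matrix.smul_apply, smul_eq_mul] at h2
  rw [← h2]
  exact Finset.sum_congr rfl fun k _ => mul_comm _ _

/-- the repetitions -/
structure Reps (M : Matrix (Fin d) (Fin d) ℝ) (α : Fin d → ℝ) (C : ℝ) (C₀ : ℕ)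
    (V : ℕ → Matrix (Fin d) (Fin d) ℤ) (m n L : ℕ → ℕ) (δ : ℕ → Matrix (Fin d) (Fin d) ℤ) :
    Prop where
  sum : ∑ i, α i = 0
  unit : ∀ n, IsUnit (V n).det
  bound : ∀ (n : ℕ) i j, |mv M (fun i => (n : ℝ) * α i) (V n) i j| ≤ C
  le : ∀ t, m t ≤ n t
  lin : ∀ t, n t ≤ C₀ * L t
  tend : Tendsto L atTop atTop
  rep : ∀ t, ∀ k ≤ L t, V (n t + k) = δ t * V (m t + k)

theorem contra {M : Matrix (Fin d) (Fin d) ℝ} (hM : M.det ≠ 0)
    (halg : ∀ i j, IsAlgebraic ℚ (M i j)) {α : Fin d → ℝ} {C : ℝ} {C₀ : ℕ}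
    {V : ℕ → Matrix (Fin d) (Fin d) ℤ} {m n L : ℕ → ℕ} {δ : ℕ → Matrix (Fin d) (Fin d) ℤ}
    (hR : Reps M α C C₀ V m n L δ)
    (v : Fin r → Matrix (Fin d) (Fin d) ℤ) (z : ℕ → Fin r → ℤ) (D : ℕ) (hD : 0 < D)
    (hz : ∀ s, ∑ k, z s k • v k = (D : ℤ) • δ s) (hz0 : ∀ s, z s ≠ 0)
    (J : Fin r → Fin d × Fin d)
    (hJ : (Matrix.of fun k l => cj M (zr d (v k)) (J l).1 (J l).2 :
            Matrix (Fin r) (Fin r) ℝ).det ≠ 0)
    (l₀ : Fin r) (hl₀ : α (J l₀).2 < α (J l₀).1) (C' : ℝ)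
    (hsum : ∀ s, ∑ l, (-(n s : ℝ) * α (J l).1 + (m s : ℝ) * α (J l).2) ≤ C') :
    ∃ y : Fin r → ℤ, y ≠ 0 ∧ ∃ᶠ s in atTop, ∑ l, y l * z s l = 0 := by
  classical
  obtain ⟨K, hK, hKb⟩ := cj_bound hM C
  have hsumα : ∀ a : ℕ, ∑ i, (a : ℝ) * α i = 0 := fun a => by rw [← Finset.mul_sum, hR.sum, mul_zero]
  have hbd : ∀ s k, k ≤ L s → ∀ i j, |cj M (zr d (δ s)) i j| ≤
      K * Real.exp (-(((n s + k : ℕ) : ℝ) * α i) + ((m s + k : ℕ) : ℝ) * α j) := by
    intro s k hk
    exact hKb (fun i => ((n s + k : ℕ) : ℝ) * α i) (fun i => ((m s + k : ℕ) : ℝ) * α i)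
      _ _ _ (hsumα _) (hsumα _) (hR.unit _) (hR.unit _) (hR.bound _) (hR.bound _) (hR.rep s k hk)
  have hr : 1 ≤ r := by
    have := l₀.isLt
    omega
  set ex : ℕ → Fin r → ℝ := fun s l => -(n s : ℝ) * α (J l).1 + (m s : ℝ) * α (J l).2 with hex
  set g : ℝ := α (J l₀).1 - α (J l₀).2 with hg
  have hg0 : 0 < g := by rw [hg]; linarith
  set lA : ℕ → Fin r → ℝ := fun s l => Real.log (D * K) + (ex s l - if l = l₀ then L s * g else 0)
    with hlA
  have hDK : 0 < (D : ℝ) * K := by positivity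
  set a : ℝ := ∑ i, |α i| with ha
  have haα : ∀ i, |α i| ≤ a := fun i =>
    Finset.single_le_sum (f := fun i => |α i|) (fun _ _ => abs_nonneg _) (Finset.mem_univ i)
  have ha0 : 0 ≤ a := Finset.sum_nonneg fun _ _ => abs_nonneg _
  have hLR : Tendsto (fun s => (L s : ℝ)) atTop atTop := tendsto_natCast_atTop_atTop.comp hR.tend
  have hL1 : ∀ᶠ s in atTop, (1 : ℝ) ≤ L s := hLR.eventually_ge_atTop 1
  have hL2 : ∀ᶠ s in atTop, (r : ℝ) * Real.log (D * K) + C' ≤ g / 2 * L s :=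
    (hLR.const_mul_atTop (by positivity)).eventually_ge_atTop _
  have hnle : ∀ s, (n s : ℝ) ≤ C₀ * L s := fun s => by exact_mod_cast hR.lin s
  have hmle : ∀ s, (m s : ℝ) ≤ C₀ * L s := fun s =>
    le_trans (by exact_mod_cast hR.le s) (hnle s)
  have hexb : ∀ s l, |ex s l| ≤ 2 * C₀ * a * L s := by
    intro s l
    rw [hex]
    simp only
    refine (abs_add_le _ _).trans ?_
    rw [abs_mul, abs_mul, abs_neg, Nat.abs_cast, Nat.abs_cast]
    have h1 := mul_le_mul (hnle s) (haα (J l).1) (abs_nonneg _) (by positivity)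
    have h2 := mul_le_mul (hmle s) (haα (J l).2) (abs_nonneg _) (by positivity)
    linarith
  refine sub_alg hr (Matrix.of fun k l => cj M (zr d (v k)) (J l).1 (J l).2 :
            Matrix (Fin r) (Fin r) ℝ)ᵀ (fun l k => ?_) (by rw [Matrix.det_transpose]; exact hJ)
    (|Real.log (D * K)| + 2 * C₀ * a + g) (g / 2) (by positivity) (by positivity)
    (fun s => (L s : ℝ)) hLR (fun s l => Real.exp (lA s l)) z ?_ ?_ ?_ ?_ ?_
  · rw [Matrix.transpose_apply, Matrix.of_apply]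
    exact alg_cj hM halg _ _ _
  · exact Eventually.of_forall fun s l => Real.exp_pos _
  · filter_upwards [hL1] with s hs l
    rw [Real.log_exp, hlA]
    simp only
    refine (abs_add_le _ _).trans ?_
    have h1 : |ex s l - if l = l₀ then (L s : ℝ) * g else 0| ≤ 2 * C₀ * a * L s + g * L s := by
      refine (abs_sub _ _).trans (add_le_add (hexb s l) ?_)
      split_ifs
      · rw [abs_mul, abs_of_pos hg0, abs_of_nonneg (Nat.cast_nonneg _), mul_comm]
      · rw [abs_zero]; positivity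
    have h2 : |Real.log (D * K)| ≤ |Real.log (D * K)| * L s :=
      le_mul_of_one_le_right (abs_nonneg _) hs
    linarith
  · filter_upwards [hL2] with s hs
    have h1 : ∑ l, Real.log (Real.exp (lA s l)) = r * Real.log (D * K) + ∑ l, ex s l - L s * g := by
      simp only [Real.log_exp, hlA]
      rw [Finset.sum_add_distrib, Finset.sum_sub_distrib, Finset.sum_const, Finset.card_univ,
        Fintype.card_fin, nsmul_eq_mul, Finset.sum_ite_eq' Finset.univ l₀,
        if_pos (Finset.mem_univ _)]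
      ring
    rw [h1]
    have h2 := hsum s
    have h3 : ∑ l, ex s l ≤ C' := h2
    linarith
  · exact Eventually.of_forall hz0
  · refine Eventually.of_forall fun s l => ?_
    simp only [Matrix.transpose_apply, Matrix.of_apply]
    rw [cj_sum (hz s), abs_mul]
    have hcast : |(((D : ℕ) : ℤ) : ℝ)| = D := by
      rw [Int.cast_natCast, abs_of_nonneg (Nat.cast_nonneg _)]
    rw [hcast]
    have hexp : Real.exp (lA s l) = D * (K * Real.exp (ex s l - if l = l₀ then (L s : ℝ) * g else 0)) := by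
      rw [hlA]
      simp only
      rw [Real.exp_add, Real.exp_log hDK, mul_assoc]
    rw [hexp]
    refine mul_le_mul_of_nonneg_left ?_ (Nat.cast_nonneg _)
    split_ifs with h
    · subst h
      refine (hbd s (L s) le_rfl _ _).trans (le_of_eq ?_)
      congr 2
      rw [hex, hg]
      simp only
      push_cast
      ring
    · refine (hbd s 0 (Nat.zero_le _) _ _).trans (le_of_eq ?_)
      congr 2
      rw [hex]
      simp only [add_zero, sub_zero]
      ring

end Pool.Agent.H202.ST
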