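import Mathlib
import Pool.Agent.H202.ST.Contra

/-!
# The transitions of a repetitive expansion of an algebraic form are block triangular
-/

set_option autoImplicit false

open Finset Matrix Filter Topology

namespace Pool.Agent.H202.ST

variable {d r : ℕ}

lemma exists_common {ι : Type*} [Fintype ι] (f : ι → ℚ) :
    ∃ D : ℕ, 0 < D ∧ ∀ i, ∃ z : ℤ, (z : ℚ) = D * f i := by
  classical
  refine ⟨∏ i, (f i).den, Finset.prod_pos fun i _ => (f i).pos, fun i => ?_⟩
  refine ⟨(f i).num * ∏ j ∈ Finset.univ.erase i, ((f j).den : ℤ), ?_⟩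
  rw [← Finset.mul_prod_erase Finset.univ _ (Finset.mem_univ i)]
  push_cast
  have h1 : ((f i).den : ℚ) * f i = (f i).num := by
    rw [mul_comm]
    exact Rat.mul_den_eq_num (f i)
  calc ((f i).num : ℚ) * ∏ j ∈ Finset.univ.erase i, ((f j).den : ℚ)
      = ((f i).den * f i) * ∏ j ∈ Finset.univ.erase i, ((f j).den : ℚ) := by rw [h1]
    _ = _ := by ring

lemma frequently_exists_fintype {ι : Type*} [Fintype ι] {P : ℕ → ι → Prop}
    (h : ∃ᶠ t in atTop, ∃ J, P t J) : ∃ J, ∃ᶠ t in atTop, P t J := by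
  by_contra hcon
  push Not at hcon
  apply h
  have h1 : ∀ J, ∀ᶠ t in atTop, ¬ P t J := fun J => by
    have := hcon J
    exact this
  have h2 := Filter.eventually_all.2 h1
  filter_upwards [h2] with t ht
  rintro ⟨J, hJ⟩
  exact ht J hJ

lemma Reps.comp {M : Matrix (Fin d) (Fin d) ℝ} {α : Fin d → ℝ} {C : ℝ} {C₀ : ℕ}
    {V : ℕ → Matrix (Fin d) (Fin d) ℤ} {m n L : ℕ → ℕ} {δ : ℕ → Matrix (Fin d) (Fin d) ℤ}
    (hR : Reps M α C C₀ V m n L δ) {φ : ℕ → ℕ} (hφ : Tendsto φ atTop atTop) :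
    Reps M α C C₀ V (m ∘ φ) (n ∘ φ) (L ∘ φ) (δ ∘ φ) where
  sum := hR.sum
  unit := hR.unit
  bound := hR.bound
  le := fun _ => hR.le _
  lin := fun _ => hR.lin _
  tend := hR.tend.comp hφ
  rep := fun _ => hR.rep _

theorem core (hd : 0 < d) {M : Matrix (Fin d) (Fin d) ℝ} (hM : M.det ≠ 0)
    (halg : ∀ i j, IsAlgebraic ℚ (M i j)) {α : Fin d → ℝ} {C : ℝ} {C₀ : ℕ}
    {V : ℕ → Matrix (Fin d) (Fin d) ℤ} {m n L : ℕ → ℕ} {δ : ℕ → Matrix (Fin d) (Fin d) ℤ}
    (hR : Reps M α C C₀ V m n L δ) :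
    ∃ᶠ t in atTop, ∀ i j, (∀ i', α i' ≤ α i) → α j < α i → cj M (zr d (δ t)) i j = 0 := by
  classical
  -- the minimal rational space
  set S : Set (Submodule ℚ (Matrix (Fin d) (Fin d) ℚ)) := {U | ∃ᶠ t in atTop, zq d (δ t) ∈ U}
    with hSdef
  have hS : S.Nonempty := ⟨⊤, by
    rw [hSdef, Set.mem_ofPred_eq]
    exact (Eventually.of_forall fun t => Submodule.mem_top).frequently⟩
  obtain ⟨U, hU, hmin⟩ := WellFounded.has_min
    (wellFounded_lt (α := Submodule ℚ (Matrix (Fin d) (Fin d) ℚ))) S hS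
  set r := Module.finrank ℚ U with hr
  set b : Module.Basis (Fin r) ℚ U := Module.finBasis ℚ U with hb
  -- integral basis
  obtain ⟨D₁, hD₁, hv⟩ := exists_common
    (fun p : Fin r × Fin d × Fin d => (b p.1 : Matrix (Fin d) (Fin d) ℚ) p.2.1 p.2.2)
  choose v' hv' using hv
  set v : Fin r → Matrix (Fin d) (Fin d) ℤ := fun k i j => v' (k, i, j) with hvdef
  have hvb : ∀ k, zq d (v k) = (D₁ : ℚ) • (b k : Matrix (Fin d) (Fin d) ℚ) := by
    intro k
    ext i j
    rw [zq_apply, Matrix.smul_apply, smul_eq_mul]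
    exact hv' (k, i, j)
  have hD₁q : (D₁ : ℚ) ≠ 0 := by exact_mod_cast hD₁.ne'
  have hvli : LinearIndependent ℚ (fun k => zq d (v k)) := by
    have h1 : LinearIndependent ℚ (fun k => (b k : Matrix (Fin d) (Fin d) ℚ)) :=
      b.linearIndependent.map' U.subtype (Submodule.ker_subtype U)
    rw [Fintype.linearIndependent_iff] at h1 ⊢
    intro c hc k
    have h2 : ∑ k, (c k * D₁) • (b k : Matrix (Fin d) (Fin d) ℚ) = 0 := by
      rw [← hc]
      exact Finset.sum_congr rfl fun k _ => by rw [hvb, smul_smul]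
    exact (mul_eq_zero.1 (h1 _ h2 k)).resolve_right hD₁q
  -- the coordinates
  have hext : ∀ k, ∃ g : Matrix (Fin d) (Fin d) ℚ →ₗ[ℚ] ℚ, g ∘ₗ U.subtype = b.coord k :=
    fun k => LinearMap.exists_extend (b.coord k)
  choose gk hgk using hext
  obtain ⟨D₂, hD₂, hg⟩ := exists_common
    (fun p : Fin r × Fin d × Fin d => gk p.1 (Matrix.single p.2.1 p.2.2 1))
  choose g' hg' using hg
  have hcoord : ∀ (t : ℕ) (k : Fin r) (ht : zq d (δ t) ∈ U), ∃ z : ℤ,
      (z : ℚ) = D₂ * b.coord k ⟨zq d (δ t), ht⟩ := by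
    intro t k ht
    refine ⟨∑ i, ∑ j, δ t i j * g' (k, i, j), ?_⟩
    have h1 : b.coord k ⟨zq d (δ t), ht⟩ = gk k (zq d (δ t)) := by
      rw [← hgk k]; rfl
    have h2 : zq d (δ t) = ∑ i, ∑ j, (δ t i j : ℚ) • Matrix.single i j (1 : ℚ) := by
      conv_lhs => rw [Matrix.matrix_eq_sum_single (zq d (δ t))]
      refine Finset.sum_congr rfl fun i _ => Finset.sum_congr rfl fun j _ => ?_
      rw [zq_apply, Matrix.smul_single, smul_eq_mul, mul_one]
    rw [h1, h2, map_sum, Finset.mul_sum]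
    push_cast
    refine Finset.sum_congr rfl fun i _ => ?_
    rw [map_sum, Finset.mul_sum]
    refine Finset.sum_congr rfl fun j _ => ?_
    rw [map_smul, smul_eq_mul, hg' (k, i, j)]
    ring
  have hδ0 : ∀ t, δ t ≠ 0 := by
    intro t h0
    have h1 := hR.rep t 0 (Nat.zero_le _)
    rw [h0, Matrix.zero_mul, add_zero] at h1
    have h2 := hR.unit (n t)
    have : Nonempty (Fin d) := ⟨⟨0, hd⟩⟩
    rw [h1, Matrix.det_zero] at h2
    exact not_isUnit_zero h2
  have hzex : ∀ t, zq d (δ t) ∈ U → ∃ z : Fin r → ℤ, z ≠ 0 ∧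
      ∑ k, z k • v k = ((D₁ * D₂ : ℕ) : ℤ) • δ t ∧
      ∀ ht : zq d (δ t) ∈ U, ∀ k, (z k : ℚ) = D₂ * b.coord k ⟨zq d (δ t), ht⟩ := by
    intro t ht
    choose z hz using fun k => hcoord t k ht
    have hsum : ∑ k, z k • v k = ((D₁ * D₂ : ℕ) : ℤ) • δ t := by
      apply zq_injective
      rw [map_sum, map_zsmul]
      have h1 := congrArg (fun u : U => (u : Matrix (Fin d) (Fin d) ℚ))
        (b.sum_repr ⟨zq d (δ t), ht⟩)
      simp only at h1
      rw [Submodule.coe_sum] at h1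
      have h2 : ((D₁ * D₂ : ℕ) : ℤ) • zq d (δ t) = ((D₁ : ℚ) * D₂) • zq d (δ t) := by
        rw [← Int.cast_smul_eq_zsmul ℚ]
        push_cast
        rfl
      rw [h2, ← h1, Finset.smul_sum]
      refine Finset.sum_congr rfl fun k _ => ?_
      rw [map_zsmul, ← Int.cast_smul_eq_zsmul ℚ, hz k, hvb k, Submodule.coe_smul, smul_smul,
        smul_smul]
      congr 1
      rw [Module.Basis.coord_apply]
      ring
    refine ⟨z, ?_, hsum, fun _ k => hz k⟩
    intro h0
    rw [h0] at hsum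
    simp only [Pi.zero_apply, zero_smul, Finset.sum_const_zero] at hsum
    rcases smul_eq_zero.1 hsum.symm with h1 | h1
    · have : D₁ * D₂ ≠ 0 := (Nat.mul_pos hD₁ hD₂).ne'
      exact this (by exact_mod_cast h1)
    · exact hδ0 t h1
  -- contradictions
  set Φ : (Fin r → Fin d × Fin d) → Matrix (Fin r) (Fin r) ℝ := fun J =>
    Matrix.of fun k l => cj M (zr d (v k)) (J l).1 (J l).2 with hΦ
  set sm : ℕ → (Fin r → Fin d × Fin d) → ℝ := fun t J =>
    ∑ l, (-(n t : ℝ) * α (J l).1 + (m t : ℝ) * α (J l).2) with hsm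
  have hc : ∀ (J : Fin r → Fin d × Fin d) (C' : ℝ), (Φ J).det ≠ 0 → ∀ l₀,
      α (J l₀).2 < α (J l₀).1 →
      (∃ᶠ t in atTop, zq d (δ t) ∈ U ∧ sm t J ≤ C') → False := by
    intro J C' hJ l₀ hl₀ hfr
    obtain ⟨φ, hφ, hP⟩ := Filter.extraction_of_frequently_atTop hfr
    have hφt := hφ.tendsto_atTop
    choose z hz0 hz hz2 using fun s => hzex (φ s) (hP s).1
    obtain ⟨y, hy, hyf⟩ := contra hM halg (hR.comp hφt) v z (D₁ * D₂) (Nat.mul_pos hD₁ hD₂) hz
      hz0 J hJ l₀ hl₀ C' (fun s => (hP s).2)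
    -- the smaller space
    set f : U →ₗ[ℚ] ℚ := ∑ l, (y l : ℚ) • b.coord l with hf
    set U' : Submodule ℚ (Matrix (Fin d) (Fin d) ℚ) := (LinearMap.ker f).map U.subtype with hU'
    have hle : U' ≤ U := Submodule.map_subtype_le _ _
    have hlt : U' < U := by
      refine lt_of_le_of_ne hle fun heq => ?_
      obtain ⟨l, hl⟩ : ∃ l, y l ≠ 0 := by
        by_contra hcon
        push Not at hcon
        exact hy (funext hcon)
      have h1 : (b l : Matrix (Fin d) (Fin d) ℚ) ∈ U' := by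
        rw [heq]; exact (b l).2
      obtain ⟨u, hu, hu2⟩ := h1
      have h2 : u = b l := Subtype.ext hu2
      rw [h2] at hu
      have h3 : f (b l) = y l := by
        rw [hf, LinearMap.sum_apply]
        rw [Finset.sum_eq_single l]
        · rw [LinearMap.smul_apply, Module.Basis.coord_apply, Module.Basis.repr_self,
            Finsupp.single_eq_same, smul_eq_mul, mul_one]
        · intro l' _ hl'
          rw [LinearMap.smul_apply, Module.Basis.coord_apply, Module.Basis.repr_self,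
            Finsupp.single_eq_of_ne (by exact hl'), smul_zero]
        · intro h; exact absurd (Finset.mem_univ l) h
      have h4 : f (b l) = 0 := hu
      rw [h3] at h4
      exact hl (by exact_mod_cast h4)
    refine hmin U' ?_ hlt
    rw [hSdef, Set.mem_ofPred_eq]
    have h1 : ∃ᶠ s in atTop, zq d (δ (φ s)) ∈ U' := by
      refine hyf.mono fun s hs => ?_
      refine ⟨⟨zq d (δ (φ s)), (hP s).1⟩, ?_, rfl⟩
      change f _ = 0
      rw [hf, LinearMap.sum_apply]
      have h2 : ∑ l, (y l : ℚ) * (z s l : ℚ) = 0 := by exact_mod_cast hs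
      have h3 : (D₂ : ℚ) ≠ 0 := by exact_mod_cast hD₂.ne'
      have h4 : (D₂ : ℚ) * ∑ l, ((y l : ℚ) • b.coord l) ⟨zq d (δ (φ s)), (hP s).1⟩ = 0 := by
        rw [← h2, Finset.mul_sum]
        refine Finset.sum_congr rfl fun l _ => ?_
        rw [hz2 s (hP s).1 l, LinearMap.smul_apply, smul_eq_mul]
        ring
      exact (mul_eq_zero.1 h4).resolve_left h3
    exact hφt.frequently h1
  -- the large minor
  obtain ⟨c, hc0, hA⟩ := stepA hM C v hvli
  set B : ℝ := ∑ J : Fin r → Fin d × Fin d, |(Φ J).det| + 1 with hB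
  have hB0 : 0 < B := by
    have : 0 ≤ ∑ J : Fin r → Fin d × Fin d, |(Φ J).det| := Finset.sum_nonneg fun _ _ => abs_nonneg _
    linarith
  set C' : ℝ := Real.log (B / c) with hC'
  have hsumα : ∀ a : ℕ, ∑ i, (a : ℝ) * α i = 0 := fun a => by rw [← Finset.mul_sum, hR.sum, mul_zero]
  have hex : ∀ t, ∃ J : Fin r → Fin d × Fin d, (Φ J).det ≠ 0 ∧ sm t J ≤ C' := by
    intro t
    obtain ⟨J, hJ⟩ := hA (fun i => (n t : ℝ) * α i) (fun i => (m t : ℝ) * α i) (V (n t)) (V (m t))
      (hsumα _) (hsumα _) (hR.unit _) (hR.unit _) (hR.bound _) (hR.bound _)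
    have hJ' : c ≤ Real.exp (-sm t J) * |(Φ J).det| := by
      refine hJ.trans (le_of_eq ?_)
      congr 2
      rw [hsm]
      simp only
      rw [← Finset.sum_neg_distrib]
      refine Finset.sum_congr rfl fun l _ => ?_
      ring
    refine ⟨J, ?_, ?_⟩
    · intro h0
      rw [h0, abs_zero, mul_zero] at hJ'
      linarith
    · have h1 : |(Φ J).det| ≤ B := by
        have := Finset.single_le_sum (f := fun J : Fin r → Fin d × Fin d => |(Φ J).det|)
          (fun _ _ => abs_nonneg _) (Finset.mem_univ J)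
        linarith
      have h2 : c ≤ Real.exp (-sm t J) * B :=
        hJ'.trans (mul_le_mul_of_nonneg_left h1 (Real.exp_pos _).le)
      rw [hC', Real.le_log_iff_exp_le (div_pos hB0 hc0), le_div_iff₀ hc0]
      calc Real.exp (sm t J) * c ≤ Real.exp (sm t J) * (Real.exp (-sm t J) * B) :=
            mul_le_mul_of_nonneg_left h2 (Real.exp_pos _).le
        _ = B := by rw [← mul_assoc, ← Real.exp_add, add_neg_cancel, Real.exp_zero, one_mul]
  obtain ⟨J, hJ⟩ := frequently_exists_fintype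
    (P := fun t J => zq d (δ t) ∈ U ∧ (Φ J).det ≠ 0 ∧ sm t J ≤ C')
    (hU.mono fun t ht => by
      obtain ⟨J, h1, h2⟩ := hex t
      exact ⟨J, ht, h1, h2⟩)
  have hJ0 : (Φ J).det ≠ 0 := by
    obtain ⟨t, ht⟩ := hJ.exists
    exact ht.2.1
  have hJle : ∀ l, α (J l).1 ≤ α (J l).2 := by
    intro l
    by_contra hcon
    rw [not_le] at hcon
    exact hc J C' hJ0 l hcon (hJ.mono fun t ht => ⟨ht.1, ht.2.2⟩)
  -- the vanishing
  have hvan : ∀ i j, (∀ i', α i' ≤ α i) → α j < α i → ∀ k, cj M (zr d (v k)) i j = 0 := by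
    intro i j hi hj
    by_contra hcon
    push Not at hcon
    obtain ⟨k, hk⟩ := hcon
    set w : Fin r → ℝ := fun k => cj M (zr d (v k)) i j with hw
    have hw0 : w ≠ 0 := fun h0 => hk (congrFun h0 k)
    obtain ⟨l₀, hl₀⟩ := exchange (Φ J) hJ0 w hw0
    set J' := Function.update J l₀ (i, j) with hJ'
    have hΦ' : (Φ J).updateCol l₀ w = Φ J' := by
      ext k l
      rw [Matrix.updateCol_apply]
      split_ifs with h
      · subst h
        rw [hΦ]
        simp only [Matrix.of_apply, hJ', Function.update_self, hw]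
      · rw [hΦ]
        simp only [Matrix.of_apply, hJ', Function.update_of_ne h]
    rw [hΦ'] at hl₀
    refine hc J' C' hl₀ l₀ (by rw [hJ', Function.update_self]; exact hj)
      (hJ.mono fun t ht => ⟨ht.1, le_trans ?_ ht.2.2⟩)
    rw [hsm]
    refine Finset.sum_le_sum fun l _ => ?_
    by_cases h : l = l₀
    · subst h
      rw [hJ', Function.update_self]
      simp only
      have h1 := hJle l
      have h2 := hi (J l).1
      have h3 : (m t : ℝ) ≤ n t := by exact_mod_cast hR.le t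
      have h4 : (0 : ℝ) ≤ m t := Nat.cast_nonneg _
      nlinarith [mul_nonneg (sub_nonneg.2 h3) (sub_nonneg.2 h2),
        mul_nonneg h4 (sub_nonneg.2 h1), mul_nonneg h4 (sub_nonneg.2 hj.le)]
    · rw [hJ', Function.update_of_ne h]
  refine hU.mono fun t ht i j hi hj => ?_
  obtain ⟨z, hz0, hz, -⟩ := hzex t ht
  have h1 := cj_sum (M := M) hz i j
  simp only [hvan i j hi hj, zero_mul, Finset.sum_const_zero] at h1
  rcases mul_eq_zero.1 h1.symm with h2 | h2
  · exfalso
    have : D₁ * D₂ ≠ 0 := (Nat.mul_pos hD₁ hD₂).ne'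
    exact this (by exact_mod_cast h2)
  · exact h2

end Pool.Agent.H202.ST
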