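import Mathlib

/-!
# The eigenvalues of a block triangular matrix with blocks of different sizes
-/

set_option autoImplicit false

open Finset Matrix Polynomial

namespace Pool.Agent.H202.ST

variable {n : Type*} [Fintype n] [DecidableEq n]

/-- the determinant of a complex matrix whose rows are bounded -/
lemma det_bound_c (M : Matrix n n ℂ) (β : n → ℝ) (h : ∀ s t, ‖M s t‖ ≤ β s) :
    ‖M.det‖ ≤ ((Fintype.card n).factorial : ℝ) * ∏ s, β s := by
  rw [det_apply]
  refine (norm_sum_le _ _).trans ?_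
  have h1 : ∀ σ ∈ (Finset.univ : Finset (Equiv.Perm n)),
      ‖Equiv.Perm.sign σ • ∏ i, M (σ i) i‖ ≤ ∏ s, β s := by
    intro σ _
    have h2 : ‖Equiv.Perm.sign σ • ∏ i, M (σ i) i‖ = ∏ i, ‖M (σ i) i‖ := by
      rw [← norm_prod]
      rcases Int.units_eq_one_or (Equiv.Perm.sign σ) with h | h <;> simp [h]
    rw [h2, ← Equiv.prod_comp σ β]
    exact Finset.prod_le_prod (fun i _ => norm_nonneg _) fun i _ => h _ _
  refine (Finset.sum_le_sum h1).trans (le_of_eq ?_)
  rw [Finset.sum_const, Finset.card_univ, Fintype.card_perm, nsmul_eq_mul]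

/-- an eigenvector with largest coordinate one -/
lemma exists_eigvec (B : Matrix n n ℂ) (μ : ℂ) (h : B.charpoly.eval μ = 0) :
    ∃ (v : n → ℂ) (i₀ : n), v i₀ = 1 ∧ (∀ i, ‖v i‖ ≤ 1) ∧ B *ᵥ v = μ • v := by
  rw [Matrix.eval_charpoly] at h
  obtain ⟨v, hv, hv2⟩ := Matrix.exists_mulVec_eq_zero_iff.2 h
  obtain ⟨j, hj⟩ : ∃ j, v j ≠ 0 := by
    by_contra hcon
    push Not at hcon
    exact hv (funext hcon)
  obtain ⟨i₀, -, hi₀⟩ := Finset.exists_max_image Finset.univ (fun i => ‖v i‖) ⟨j, Finset.mem_univ _⟩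
  have h0 : v i₀ ≠ 0 := by
    intro h0
    have := hi₀ j (Finset.mem_univ _)
    rw [h0, norm_zero] at this
    exact hj (norm_le_zero_iff.1 this)
  have hBv : B *ᵥ v = μ • v := by
    rw [Matrix.sub_mulVec, sub_eq_zero] at hv2
    rw [← hv2]
    funext i
    simp [Matrix.scalar_apply, mulVec_diagonal]
  refine ⟨(v i₀)⁻¹ • v, i₀, ?_, fun i => ?_, ?_⟩
  · rw [Pi.smul_apply, smul_eq_mul, inv_mul_cancel₀ h0]
  · rw [Pi.smul_apply, smul_eq_mul, norm_mul, norm_inv, inv_mul_le_iff₀ (norm_pos_iff.2 h0),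
      mul_one]
    exact hi₀ i (Finset.mem_univ _)
  · rw [Matrix.mulVec_smul, hBv, smul_comm]

/-- the size of an eigenvalue -/
lemma eig_le (B : Matrix n n ℂ) (μ : ℂ) (h : B.charpoly.eval μ = 0) {ε : ℝ}
    (hB : ∀ i j, ‖B i j‖ ≤ ε) : ‖μ‖ ≤ Fintype.card n * ε := by
  obtain ⟨v, i₀, h1, h2, h3⟩ := exists_eigvec B μ h
  have h4 := congrFun h3 i₀
  rw [Pi.smul_apply, smul_eq_mul, h1, mul_one] at h4
  rw [← h4, Matrix.mulVec, dotProduct]
  refine (norm_sum_le _ _).trans ?_
  have h5 : ∀ i ∈ (Finset.univ : Finset n), ‖B i₀ i * v i‖ ≤ ε := by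
    intro i _
    rw [norm_mul]
    calc ‖B i₀ i‖ * ‖v i‖ ≤ ‖B i₀ i‖ * 1 := mul_le_mul_of_nonneg_left (h2 i) (norm_nonneg _)
      _ ≤ ε := by rw [mul_one]; exact hB _ _
  refine (Finset.sum_le_sum h5).trans ?_
  rw [Finset.sum_const, Finset.card_univ, nsmul_eq_mul]

/-- a matrix with a small eigenvalue has a small determinant -/
lemma det_le_eig (B : Matrix n n ℂ) (μ : ℂ) (h : B.charpoly.eval μ = 0) {β : n → ℝ} {b : ℝ}
    (hb : 0 < b) (hbβ : ∀ i, b ≤ β i) (hB : ∀ i j, ‖B i j‖ ≤ β i) :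
    ‖B.det‖ ≤ ((Fintype.card n).factorial : ℝ) * (∏ i, β i) * (‖μ‖ / b) := by
  obtain ⟨v, i₀, h1, h2, h3⟩ := exists_eigvec B μ h
  have hβ0 : ∀ i, 0 < β i := fun i => hb.trans_le (hbβ i)
  have hdet : B.det = (B.updateCol i₀ (μ • v)).det := by
    have h4 : Matrix.cramer B (B *ᵥ v) = B.det • v := by
      rw [Matrix.cramer_eq_adjugate_mulVec, Matrix.mulVec_mulVec, Matrix.adjugate_mul,
        Matrix.smul_mulVec, Matrix.one_mulVec]
    have h5 := congrFun h4 i₀
    rw [Matrix.cramer_apply, h3, Pi.smul_apply, smul_eq_mul, h1, mul_one] at h5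
    exact h5.symm
  set B' := B.updateCol i₀ (μ • v) with hB'
  have hsc : B'.det = ((∏ i, β i : ℝ) : ℂ) *
      (Matrix.of fun i j => ((β i : ℝ) : ℂ)⁻¹ * B' i j : Matrix n n ℂ).det := by
    rw [Matrix.det_mul_column, ← mul_assoc]
    have h4 : ((∏ i, β i : ℝ) : ℂ) * ∏ i, ((β i : ℝ) : ℂ)⁻¹ = 1 := by
      rw [Complex.ofReal_prod, ← Finset.prod_mul_distrib]
      refine Finset.prod_eq_one fun i _ => ?_
      exact mul_inv_cancel₀ (Complex.ofReal_ne_zero.2 (hβ0 i).ne')
    rw [h4, one_mul]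
  set γ : n → ℝ := fun j => if j = i₀ then ‖μ‖ / b else 1 with hγ
  have hB2 : ‖(Matrix.of fun i j => ((β i : ℝ) : ℂ)⁻¹ * B' i j : Matrix n n ℂ).det‖ ≤
      ((Fintype.card n).factorial : ℝ) * ∏ j, γ j := by
    rw [← Matrix.det_transpose]
    refine det_bound_c _ γ fun j i => ?_
    rw [Matrix.transpose_apply, Matrix.of_apply, norm_mul, norm_inv, Complex.norm_real,
      Real.norm_of_nonneg (hβ0 i).le, inv_mul_le_iff₀ (hβ0 i)]
    by_cases hj : j = i₀
    · have h5 : B' i j = μ * v i := by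
        rw [hB', Matrix.updateCol_apply, if_pos hj]; rfl
      have h6 : γ j = ‖μ‖ / b := by simp only [hγ, if_pos hj]
      rw [h5, h6, norm_mul]
      calc ‖μ‖ * ‖v i‖ ≤ ‖μ‖ * 1 := mul_le_mul_of_nonneg_left (h2 i) (norm_nonneg _)
        _ = b * (‖μ‖ / b) := by field_simp
        _ ≤ β i * (‖μ‖ / b) := mul_le_mul_of_nonneg_right (hbβ i) (by positivity)
    · have h5 : B' i j = B i j := by
        rw [hB', Matrix.updateCol_apply, if_neg hj]
      have h6 : γ j = 1 := by simp only [hγ, if_neg hj]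
      rw [h5, h6, mul_one]
      exact hB i j
  have hγp : ∏ j, γ j = ‖μ‖ / b := by
    rw [hγ, Finset.prod_ite_eq' Finset.univ i₀, if_pos (Finset.mem_univ _)]
  rw [hdet, hsc, norm_mul, Complex.norm_real, Real.norm_of_nonneg
    (Finset.prod_nonneg fun i _ => (hβ0 i).le)]
  rw [hγp] at hB2
  calc (∏ i, β i) * _ ≤ (∏ i, β i) * (((Fintype.card n).factorial : ℝ) * (‖μ‖ / b)) :=
        mul_le_mul_of_nonneg_left hB2 (Finset.prod_nonneg fun i _ => (hβ0 i).le)
    _ = _ := by ring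

lemma charmatrix_block {R : Type*} [CommRing R] (G : Matrix n n R) (p : n → Prop)
    [DecidablePred p] :
    (charmatrix G).toSquareBlockProp p = charmatrix (G.toSquareBlockProp p) := by
  ext i j : 1
  simp [charmatrix_apply, toSquareBlockProp_def, diagonal_apply, Subtype.ext_iff]

lemma charpoly_blocks {R : Type*} [CommRing R] (G : Matrix n n R) (p : n → Prop)
    [DecidablePred p] (h : ∀ i, p i → ∀ j, ¬ p j → G i j = 0) :
    G.charpoly = (G.toSquareBlockProp p).charpoly *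
      (G.toSquareBlockProp fun i => ¬ p i).charpoly := by
  unfold Matrix.charpoly
  rw [Matrix.twoBlockTriangular_det' _ p, charmatrix_block, charmatrix_block]
  intro i hi j hj
  have hij : i ≠ j := by
    rintro rfl
    exact hj hi
  rw [charmatrix_apply_ne _ _ _ hij, h i hi j hj, map_zero, neg_zero]

/-- the two blocks have no common eigenvalue -/
theorem coprime_blocks (G : Matrix n n ℝ) (p : n → Prop) [DecidablePred p]
    (h : ∀ i, p i → ∀ j, ¬ p j → G i j = 0) {β : n → ℝ} (hβ : ∀ i j, |G i j| ≤ β i)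
    {b ε : ℝ} (hb : 0 < b) (hε : 0 < ε) (hβ0 : ∀ i, 0 < β i) (hbβ : ∀ i, ¬ p i → b ≤ β i)
    (hεβ : ∀ i, p i → β i ≤ ε) (hdet : |G.det| = 1)
    (hsmall : ((Fintype.card n).factorial : ℝ) ^ 2 * Fintype.card n * (∏ i, β i) * (ε / b) < 1) :
    IsCoprime (G.toSquareBlockProp p).charpoly (G.toSquareBlockProp fun i => ¬ p i).charpoly := by
  rw [Polynomial.isCoprime_iff_aeval_ne_zero_of_isAlgClosed ℝ ℂ]
  intro μ
  by_contra hcon
  push Not at hcon
  obtain ⟨hA, hB⟩ := hcon
  set A : Matrix {i // p i} {i // p i} ℂ :=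
    (algebraMap ℝ ℂ).mapMatrix (G.toSquareBlockProp p) with hAdef
  set B : Matrix {i // ¬ p i} {i // ¬ p i} ℂ :=
    (algebraMap ℝ ℂ).mapMatrix (G.toSquareBlockProp fun i => ¬ p i) with hBdef
  have hA1 : A.charpoly.eval μ = 0 := by
    rw [hAdef, RingHom.mapMatrix_apply, Matrix.charpoly_map, eval_map_algebraMap]
    exact hA
  have hB1 : B.charpoly.eval μ = 0 := by
    rw [hBdef, RingHom.mapMatrix_apply, Matrix.charpoly_map, eval_map_algebraMap]
    exact hB
  have hAe : ∀ i j, ‖A i j‖ ≤ β i := fun i j => by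
    have h1 : A i j = ((G i j : ℝ) : ℂ) := rfl
    rw [h1, Complex.norm_real]
    exact hβ _ _
  have hBe : ∀ i j, ‖B i j‖ ≤ β i := fun i j => by
    have h1 : B i j = ((G i j : ℝ) : ℂ) := rfl
    rw [h1, Complex.norm_real]
    exact hβ _ _
  have hμ := eig_le A μ hA1 (ε := ε) fun i j => (hAe i j).trans (hεβ i i.2)
  have hdA := det_bound_c A (fun i => β i) hAe
  have hdB := det_le_eig B μ hB1 (β := fun i => β i) hb (fun i => hbβ i i.2) hBe
  have hcA : Fintype.card {i // p i} ≤ Fintype.card n := Fintype.card_subtype_le _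
  have hcB : Fintype.card {i // ¬ p i} ≤ Fintype.card n := Fintype.card_subtype_le _
  have hfA : ((Fintype.card {i // p i}).factorial : ℝ) ≤ (Fintype.card n).factorial := by
    exact_mod_cast Nat.factorial_le hcA
  have hfB : ((Fintype.card {i // ¬ p i}).factorial : ℝ) ≤ (Fintype.card n).factorial := by
    exact_mod_cast Nat.factorial_le hcB
  have hcA' : (Fintype.card {i // p i} : ℝ) ≤ Fintype.card n := by exact_mod_cast hcA
  have hG : ‖A.det‖ * ‖B.det‖ = 1 := by
    have h1 : A.det = ((G.toSquareBlockProp p).det : ℝ) := by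
      rw [hAdef, ← RingHom.map_det]; rfl
    have h2 : B.det = ((G.toSquareBlockProp fun i => ¬ p i).det : ℝ) := by
      rw [hBdef, ← RingHom.map_det]; rfl
    rw [h1, h2, Complex.norm_real, Complex.norm_real, ← norm_mul,
      ← Matrix.twoBlockTriangular_det' G p h]
    exact hdet
  have hPA : 0 ≤ ∏ i : {i // p i}, β i := Finset.prod_nonneg fun i _ => (hβ0 i).le
  have hPB : 0 ≤ ∏ i : {i // ¬ p i}, β i := Finset.prod_nonneg fun i _ => (hβ0 i).le
  have hPP : (∏ i : {i // p i}, β i) * ∏ i : {i // ¬ p i}, β i = ∏ i, β i :=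
    Fintype.prod_subtype_mul_prod_subtype p β
  have h1 : ‖A.det‖ ≤ ((Fintype.card n).factorial : ℝ) * ∏ i : {i // p i}, β i :=
    hdA.trans (mul_le_mul_of_nonneg_right hfA hPA)
  have h2 : ‖μ‖ / b ≤ Fintype.card n * (ε / b) := by
    rw [← mul_div_assoc]
    refine div_le_div_of_nonneg_right (hμ.trans ?_) hb.le
    exact mul_le_mul_of_nonneg_right hcA' hε.le
  have h3 : ‖B.det‖ ≤ ((Fintype.card n).factorial : ℝ) * (∏ i : {i // ¬ p i}, β i) *
      (Fintype.card n * (ε / b)) := by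
    refine hdB.trans ?_
    exact mul_le_mul (mul_le_mul_of_nonneg_right hfB hPB) h2 (by positivity) (by positivity)
  have h4 : (1 : ℝ) ≤ (((Fintype.card n).factorial : ℝ) * ∏ i : {i // p i}, β i) *
      (((Fintype.card n).factorial : ℝ) * (∏ i : {i // ¬ p i}, β i) *
      (Fintype.card n * (ε / b))) := by
    rw [← hG]
    exact mul_le_mul h1 h3 (norm_nonneg _) (by positivity)
  have h5 : (((Fintype.card n).factorial : ℝ) * ∏ i : {i // p i}, β i) *
      (((Fintype.card n).factorial : ℝ) * (∏ i : {i // ¬ p i}, β i) *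
      (Fintype.card n * (ε / b))) = ((Fintype.card n).factorial : ℝ) ^ 2 * Fintype.card n *
        (∏ i, β i) * (ε / b) := by
    rw [← hPP]; ring
  rw [h5] at h4
  linarith

/-- if the characteristic polynomial is a power, the exponent divides the size of the block -/
theorem dvd_of_coprime (G : Matrix n n ℝ) (p : n → Prop) [DecidablePred p]
    (h : ∀ i, p i → ∀ j, ¬ p j → G i j = 0)
    (hco : IsCoprime (G.toSquareBlockProp p).charpoly (G.toSquareBlockProp fun i => ¬ p i).charpoly)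
    {q : ℝ[X]} {e : ℕ} (hq : G.charpoly = q ^ e) : e ∣ (Finset.univ.filter p).card := by
  rw [charpoly_blocks G p h] at hq
  rw [← Fintype.card_subtype]
  obtain ⟨a, ha⟩ := exists_associated_pow_of_mul_eq_pow' hco hq
  have h1 := Polynomial.natDegree_eq_of_degree_eq (Polynomial.degree_eq_degree_of_associated ha)
  rw [Polynomial.natDegree_pow, Matrix.charpoly_natDegree_eq_dim] at h1
  exact ⟨_, h1.symm⟩

end Pool.Agent.H202.ST
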