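import Mathlib
import Pool.Agent.H202.ST.Core
import Pool.Agent.H202.ST.Root
import Pool.Graph.R_pool_sql_team_seeded_3997aac3.Q64.IF.Fin

/-!
# Repetitive expansions of forms with an algebraic flag
-/

set_option autoImplicit false

open Finset Matrix Filter Topology Polynomial

namespace Pool.Agent.H202.ST

open Pool.Agent.Q64.IF H715R2

variable {d : ℕ}

/-- the word `s` has long repetitions which come early -/
def Repetitive {A : Type*} (s : ℕ → A) : Prop :=
  ∃ C : ℕ, ∀ N₀ : ℕ, ∃ N, N₀ ≤ N ∧ ∃ m n, m < n ∧ n ≤ C * N ∧ ∀ k < N, s (m + k) = s (n + k)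

lemma tri_of_span {g M : Matrix (Fin d) (Fin d) ℝ} (hu : IsUnit g.det) {α : Fin d → ℝ}
    (hT : ∀ i, M i ∈ Submodule.span ℝ ((fun j => g j) '' {j | α i ≤ α j})) (i j : Fin d)
    (hij : α j < α i) : (M * g⁻¹) i j = 0 := by
  have h1 : (M * g⁻¹) i j = (M i ᵥ* g⁻¹) j := rfl
  rw [h1]
  have h2 : ∀ v ∈ Submodule.span ℝ ((fun j => g j) '' {j | α i ≤ α j}), (v ᵥ* g⁻¹) j = 0 := by
    intro v hv
    induction hv using Submodule.span_induction with
    | mem v hv =>
      obtain ⟨l, hl, rfl⟩ := hv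
      have h3 : (g l ᵥ* g⁻¹) j = (g * g⁻¹) l j := rfl
      simp only
      rw [h3, Matrix.mul_nonsing_inv _ hu, one_apply_ne]
      rintro rfl
      exact absurd hl (not_le.2 hij)
    | zero => rw [zero_vecMul]; rfl
    | add v w _ _ hv hw => rw [add_vecMul, Pi.add_apply, hv, hw, add_zero]
    | smul c v _ hv => rw [smul_vecMul, Pi.smul_apply, hv, smul_zero]
  exact h2 _ (hT i)

lemma bound_T {g M : Matrix (Fin d) (Fin d) ℝ} (hu : IsUnit g.det) {α : Fin d → ℝ}
    (hT : ∀ i j, α j < α i → (M * g⁻¹) i j = 0) {C : ℝ} {V : Matrix (Fin d) (Fin d) ℤ} {n : ℕ}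
    (hb : ∀ i j, |mv g (fun i => (n : ℝ) * α i) V i j| ≤ C) (i j : Fin d) :
    |mv M (fun i => (n : ℝ) * α i) V i j| ≤ (∑ i, ∑ k, |(M * g⁻¹) i k|) * C := by
  have hC : 0 ≤ C := (abs_nonneg _).trans (hb i j)
  have hMT : M = (M * g⁻¹) * g := by
    rw [Matrix.mul_assoc, Matrix.nonsing_inv_mul _ hu, Matrix.mul_one]
  have h1 : mv M (fun i => (n : ℝ) * α i) V i j =
      ∑ k, (M * g⁻¹) i k * Real.exp ((n : ℝ) * (α i - α k)) *
        mv g (fun i => (n : ℝ) * α i) V k j := by
    have e1 : ∀ (N : Matrix (Fin d) (Fin d) ℝ) (i j : Fin d),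
        mv N (fun i => (n : ℝ) * α i) V i j = Real.exp ((n : ℝ) * α i) * (N * zr d V) i j := by
      intro N i j
      unfold mv
      rw [Matrix.mul_assoc, Matrix.diagonal_mul]
    rw [e1]
    conv_lhs => rw [hMT, Matrix.mul_assoc, Matrix.mul_apply, Finset.mul_sum]
    refine Finset.sum_congr rfl fun k _ => ?_
    rw [e1, show (n : ℝ) * (α i - α k) = (n : ℝ) * α i + -((n : ℝ) * α k) by ring, Real.exp_add]
    have e2 : Real.exp (-((n : ℝ) * α k)) * Real.exp ((n : ℝ) * α k) = 1 := by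
      rw [← Real.exp_add, neg_add_cancel, Real.exp_zero]
    calc Real.exp ((n : ℝ) * α i) * ((M * g⁻¹) i k * (g * zr d V) k j)
        = (M * g⁻¹) i k * Real.exp ((n : ℝ) * α i) * (Real.exp (-((n : ℝ) * α k)) *
          Real.exp ((n : ℝ) * α k)) * (g * zr d V) k j := by rw [e2]; ring
      _ = _ := by ring
  rw [h1]
  refine (Finset.abs_sum_le_sum_abs _ _).trans ?_
  have h2 : ∀ k ∈ (Finset.univ : Finset (Fin d)), |(M * g⁻¹) i k *
      Real.exp ((n : ℝ) * (α i - α k)) * mv g (fun i => (n : ℝ) * α i) V k j| ≤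
      |(M * g⁻¹) i k| * C := by
    intro k _
    by_cases hk : α k < α i
    · rw [hT i k hk]
      simp
    · rw [abs_mul, abs_mul, abs_of_pos (Real.exp_pos _)]
      have h3 : Real.exp ((n : ℝ) * (α i - α k)) ≤ 1 := by
        rw [Real.exp_le_one_iff]
        have : (0 : ℝ) ≤ n := Nat.cast_nonneg _
        nlinarith [not_lt.1 hk]
      calc |(M * g⁻¹) i k| * Real.exp ((n : ℝ) * (α i - α k)) *
            |mv g (fun i => (n : ℝ) * α i) V k j|
          ≤ |(M * g⁻¹) i k| * 1 * C := by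
            refine mul_le_mul (mul_le_mul_of_nonneg_left h3 (abs_nonneg _)) (hb k j)
              (abs_nonneg _) (by positivity)
        _ = _ := by ring
  refine (Finset.sum_le_sum h2).trans ?_
  rw [← Finset.sum_mul]
  refine mul_le_mul_of_nonneg_right ?_ hC
  exact Finset.single_le_sum (f := fun i => ∑ k, |(M * g⁻¹) i k|)
    (fun _ _ => Finset.sum_nonneg fun _ _ => abs_nonneg _) (Finset.mem_univ i)

lemma cj_mul {M : Matrix (Fin d) (Fin d) ℝ} (hM : IsUnit M.det) (X Y : Matrix (Fin d) (Fin d) ℝ) :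
    cj M (X * Y) = cj M X * cj M Y := by
  unfold cj
  calc M * (X * Y) * M⁻¹ = M * X * 1 * Y * M⁻¹ := by
        rw [Matrix.mul_one]; simp only [Matrix.mul_assoc]
    _ = M * X * (M⁻¹ * M) * Y * M⁻¹ := by rw [Matrix.nonsing_inv_mul _ hM]
    _ = _ := by simp only [Matrix.mul_assoc]

lemma cj_one {M : Matrix (Fin d) (Fin d) ℝ} (hM : IsUnit M.det) : cj M 1 = 1 := by
  unfold cj
  rw [Matrix.mul_one, Matrix.mul_nonsing_inv _ hM]

/-- from the repetitions to transitions over long times which are block triangular -/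
theorem transitions (hd : 0 < d) {M : Matrix (Fin d) (Fin d) ℝ} (hM : M.det ≠ 0)
    (halg : ∀ i j, IsAlgebraic ℚ (M i j)) {α : Fin d → ℝ} (hα : ∑ i, α i = 0) {I : Finset (Fin d)}
    (hI : ∀ i, i ∈ I ↔ ∀ i', α i' ≤ α i) {C : ℝ} {V W : ℕ → Matrix (Fin d) (Fin d) ℤ}
    (hV : ∀ n, IsUnit (V n).det) (hb : ∀ (n : ℕ) i j, |mv M (fun i => (n : ℝ) * α i) (V n) i j| ≤ C)
    (hW : ∀ n, V (n + 1) = V n * W n) (hrep : Repetitive W) (P : ℕ) :
    ∃ (m p : ℕ) (σ : Matrix (Fin d) (Fin d) ℤ), P ≤ p ∧ V (m + p) = σ * V m ∧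
      ∀ i ∈ I, ∀ j ∉ I, cj M (zr d σ) i j = 0 := by
  classical
  have hMu : IsUnit M.det := isUnit_iff_ne_zero.2 hM
  obtain ⟨C₀, hC₀⟩ := hrep
  choose L hL m n hmn hn hmk using hC₀
  set δ : ℕ → Matrix (Fin d) (Fin d) ℤ := fun t => V (n t) * (V (m t))⁻¹ with hδ
  have hrepV : ∀ t, ∀ k ≤ L t, V (n t + k) = δ t * V (m t + k) := by
    intro t k
    induction k with
    | zero =>
      intro _
      rw [add_zero, add_zero, hδ]
      simp only
      rw [Matrix.mul_assoc, Matrix.nonsing_inv_mul _ (hV _), Matrix.mul_one]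
    | succ k ih =>
      intro hk
      rw [← add_assoc, ← add_assoc, hW, hW, ih (by omega), hmk t k (by omega), Matrix.mul_assoc]
  have hR : Reps M α C C₀ V m n L δ :=
    { sum := hα
      unit := hV
      bound := hb
      le := fun t => (hmn t).le
      lin := hn
      tend := tendsto_atTop_mono hL tendsto_id
      rep := hrepV }
  have hfr := core hd hM halg hR
  obtain ⟨t, ht, htP⟩ := (hfr.and_eventually (eventually_ge_atTop (P * P))).exists
  have htri : ∀ i ∈ I, ∀ j ∉ I, cj M (zr d (δ t)) i j = 0 := by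
    intro i hi j hj
    refine ht i j ((hI i).1 hi) ?_
    by_contra hcon
    rw [not_lt] at hcon
    exact hj ((hI j).2 fun i' => ((hI i).1 hi i').trans hcon)
  set q := n t - m t with hq
  have hq0 : 0 < q := by have := hmn t; omega
  have hnm : n t = m t + q := by have := hmn t; omega
  have hLP : P * P ≤ L t := htP.trans (hL t)
  have hpow : ∀ j : ℕ, (j - 1) * q ≤ L t → V (m t + j * q) = δ t ^ j * V (m t) := by
    intro j
    induction j with
    | zero => intro _; rw [zero_mul, add_zero, pow_zero, Matrix.one_mul]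
    | succ j ih =>
      intro hj
      rw [Nat.add_sub_cancel] at hj
      have h1 : (j - 1) * q ≤ L t := (Nat.mul_le_mul_right q (Nat.sub_le _ _)).trans hj
      have h2 := hrepV t (j * q) hj
      rw [hnm] at h2
      rw [show m t + (j + 1) * q = m t + q + j * q by ring, h2, ih h1, pow_succ',
        Matrix.mul_assoc (δ t) (δ t ^ j) (V (m t))]
  have htrip : ∀ j : ℕ, ∀ i ∈ I, ∀ j' ∉ I, cj M (zr d (δ t ^ j)) i j' = 0 := by
    intro j
    induction j with
    | zero =>
      intro i hi j' hj'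
      rw [pow_zero, map_one, cj_one hMu, Matrix.one_apply_ne]
      rintro rfl
      exact hj' hi
    | succ j ih =>
      intro i hi j' hj'
      rw [pow_succ, map_mul, cj_mul hMu, Matrix.mul_apply]
      refine Finset.sum_eq_zero fun k _ => ?_
      by_cases hk : k ∈ I
      · rw [htri k hk j' hj', mul_zero]
      · rw [ih i hi k hk, zero_mul]
  by_cases hqP : P ≤ q
  · refine ⟨m t, q, δ t, hqP, ?_, htri⟩
    have := hpow 1 (by simp)
    rwa [one_mul, pow_one] at this
  · refine ⟨m t, P * q, δ t ^ P, Nat.le_mul_of_pos_right _ hq0, hpow P ?_, htrip P⟩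
    refine le_trans ?_ hLP
    exact Nat.mul_le_mul (Nat.sub_le _ _) (by omega)

/-- **Main theorem.** -/
theorem main (hd : 3 ≤ d) {g : Matrix (Fin d) (Fin d) ℝ} (hg : g.det ≠ 0) (h0 : ¬ Inf0 g)
    {α : Fin d → ℝ} (hα : ∑ i, α i = 0) {I : Finset (Fin d)}
    (hI : ∀ i, i ∈ I ↔ ∀ i', α i' ≤ α i) (hI' : I ≠ Finset.univ) (hco : Nat.Coprime I.card d)
    {M : Matrix (Fin d) (Fin d) ℝ} (hM : M.det ≠ 0) (halg : ∀ i j, IsAlgebraic ℚ (M i j))
    (hT : ∀ i, M i ∈ Submodule.span ℝ ((fun j => g j) '' {j | α i ≤ α j}))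
    {C : ℝ} {V W : ℕ → Matrix (Fin d) (Fin d) ℤ}
    (hV : ∀ n, IsUnit (V n).det) (hb : ∀ (n : ℕ) i j, |mv g (fun i => (n : ℝ) * α i) (V n) i j| ≤ C)
    (hW : ∀ n, V (n + 1) = V n * W n) (hrep : Repetitive W) : PropInt g := by
  classical
  have hd0 : 0 < d := by omega
  have hgu : IsUnit g.det := isUnit_iff_ne_zero.2 hg
  have hMu : IsUnit M.det := isUnit_iff_ne_zero.2 hM
  have hne : Nonempty (Fin d) := ⟨⟨0, hd0⟩⟩
  have hTT := tri_of_span hgu hT
  set C1 : ℝ := (∑ i, ∑ k, |(M * g⁻¹) i k|) * C with hC1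
  have hbM : ∀ (n : ℕ) i j, |mv M (fun i => (n : ℝ) * α i) (V n) i j| ≤ C1 :=
    fun n i j => bound_T hgu hTT (hb n) i j
  -- the top value
  obtain ⟨i₀, -, hi₀⟩ := Finset.exists_max_image Finset.univ α Finset.univ_nonempty
  have hi₀I : i₀ ∈ I := (hI i₀).2 fun i' => hi₀ i' (Finset.mem_univ _)
  set a₀ := α i₀ with ha₀
  have hαI : ∀ i ∈ I, α i = a₀ := fun i hi =>
    le_antisymm (hi₀ i (Finset.mem_univ _)) ((hI i).1 hi i₀)
  have hαlt : ∀ i ∉ I, α i < a₀ := by
    intro i hi
    refine lt_of_le_of_ne (hi₀ i (Finset.mem_univ _)) fun h => hi ((hI i).2 fun i' => ?_)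
    rw [h]
    exact hi₀ i' (Finset.mem_univ _)
  obtain ⟨gap, hgap, hgap2⟩ : ∃ gap : ℝ, 0 < gap ∧ ∀ i ∉ I, α i ≤ a₀ - gap := by
    obtain ⟨i₁, hi₁⟩ : ∃ i₁, i₁ ∉ I := by
      by_contra hcon
      push Not at hcon
      exact hI' (Finset.eq_univ_iff_forall.2 hcon)
    obtain ⟨i₂, hi₂, hmax⟩ := Finset.exists_max_image (Finset.univ \ I) α
      ⟨i₁, by simp [hi₁]⟩
    have hi₂' : i₂ ∉ I := by simpa using hi₂
    refine ⟨a₀ - α i₂, by have := hαlt i₂ hi₂'; linarith, fun i hi => ?_⟩
    have := hmax i (by simp [hi])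
    linarith
  obtain ⟨K, hK, hKb⟩ := cj_bound hM C1
  -- a long time
  have hlim : Tendsto (fun p : ℕ => ((Fintype.card (Fin d)).factorial : ℝ) ^ 2 *
      Fintype.card (Fin d) * K ^ d * Real.exp (-(p * gap))) atTop (𝓝 0) := by
    rw [← mul_zero (((Fintype.card (Fin d)).factorial : ℝ) ^ 2 * Fintype.card (Fin d) * K ^ d)]
    refine Tendsto.const_mul _ ?_
    refine Real.tendsto_exp_atBot.comp ?_
    refine tendsto_neg_atTop_atBot.comp ?_
    exact tendsto_natCast_atTop_atTop.atTop_mul_const hgap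
  obtain ⟨P, hP⟩ := (hlim.eventually (gt_mem_nhds one_pos)).exists_forall_of_atTop
  obtain ⟨m, p, σ, hpP, hσ, htri⟩ := transitions hd0 hM halg hα hI hV hbM hW hrep P
  have hsumα : ∀ a : ℕ, ∑ i, (a : ℝ) * α i = 0 := fun a => by rw [← Finset.mul_sum, hα, mul_zero]
  have hcjb := hKb (fun i => ((m + p : ℕ) : ℝ) * α i) (fun i => (m : ℝ) * α i) (V (m + p)) (V m) σ
    (hsumα _) (hsumα _) (hV _) (hV _) (hbM _) (hbM _) hσ
  -- the conjugate
  set E : Matrix (Fin d) (Fin d) ℝ := Matrix.diagonal fun i => Real.exp ((m : ℝ) * α i) with hE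
  set E' : Matrix (Fin d) (Fin d) ℝ := Matrix.diagonal fun i => Real.exp (-((m : ℝ) * α i)) with hE'
  have hEE' : E' * E = 1 := diag_exp_mul _
  have hE'E : E * E' = 1 := diag_exp_mul' _
  set G : Matrix (Fin d) (Fin d) ℝ := E * cj M (zr d σ) * E' with hG
  have hGij : ∀ i j, G i j = Real.exp ((m : ℝ) * α i) * cj M (zr d σ) i j *
      Real.exp (-((m : ℝ) * α j)) := by
    intro i j
    rw [hG, hE', Matrix.mul_diagonal, hE, Matrix.diagonal_mul]
  have hGtri : ∀ i, i ∈ I → ∀ j, ¬ j ∈ I → G i j = 0 := by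
    intro i hi j hj
    rw [hGij, htri i hi j hj, mul_zero, zero_mul]
  set β : Fin d → ℝ := fun i => K * Real.exp (-(p * α i)) with hβ
  have hGb : ∀ i j, |G i j| ≤ β i := by
    intro i j
    rw [hGij, abs_mul, abs_mul, abs_of_pos (Real.exp_pos _), abs_of_pos (Real.exp_pos _), hβ]
    have h1 := hcjb i j
    calc Real.exp ((m : ℝ) * α i) * |cj M (zr d σ) i j| * Real.exp (-((m : ℝ) * α j))
        ≤ Real.exp ((m : ℝ) * α i) * (K * Real.exp (-(((m + p : ℕ) : ℝ) * α i) + (m : ℝ) * α j)) *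
          Real.exp (-((m : ℝ) * α j)) := by
          refine mul_le_mul_of_nonneg_right ?_ (Real.exp_pos _).le
          exact mul_le_mul_of_nonneg_left h1 (Real.exp_pos _).le
      _ = K * (Real.exp ((m : ℝ) * α i) * Real.exp (-(((m + p : ℕ) : ℝ) * α i) + (m : ℝ) * α j) *
          Real.exp (-((m : ℝ) * α j))) := by ring
      _ = K * Real.exp (-(p * α i)) := by
          rw [← Real.exp_add, ← Real.exp_add]
          congr 2
          push_cast
          ring
  have hσdet : IsUnit σ.det := by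
    have h1 := hV (m + p)
    rw [hσ, Matrix.det_mul] at h1
    exact isUnit_of_mul_isUnit_left h1
  have hchar : G.charpoly = (zr d σ).charpoly := by
    have hEu : IsUnit E.det := by
      rw [hE, det_diagonal, ← Real.exp_sum]
      exact isUnit_iff_ne_zero.2 (Real.exp_ne_zero _)
    rw [hG, Matrix.mul_assoc, Matrix.charpoly_mul_comm, Matrix.mul_assoc, hEE', Matrix.mul_one]
    unfold cj
    rw [Matrix.mul_assoc, Matrix.charpoly_mul_comm, Matrix.mul_assoc,
      Matrix.nonsing_inv_mul _ hMu, Matrix.mul_one]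
  have hGdet : |G.det| = 1 := by
    have h1 : G.det = (zr d σ).det := by
      rw [Matrix.det_eq_sign_charpoly_coeff, hchar, ← Matrix.det_eq_sign_charpoly_coeff]
    rw [h1, zr_det]
    rcases Int.isUnit_iff.1 hσdet with h | h <;> simp [h]
  have hcop := coprime_blocks G (fun i => i ∈ I) hGtri hGb
    (b := K * Real.exp (-(p * (a₀ - gap)))) (ε := K * Real.exp (-(p * a₀))) (by positivity)
    (by positivity) (fun i => by rw [hβ]; positivity)
    (fun i hi => by
      rw [hβ]
      refine mul_le_mul_of_nonneg_left (Real.exp_le_exp.2 ?_) hK.le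
      have h1 := hgap2 i hi
      have h2 : (0 : ℝ) ≤ p := Nat.cast_nonneg _
      nlinarith)
    (fun i hi => by
      rw [hβ]
      simp only
      rw [hαI i hi])
    hGdet
    (by
      have h1 : ∏ i, β i = K ^ d := by
        rw [hβ, Finset.prod_mul_distrib, Finset.prod_const, Finset.card_univ, Fintype.card_fin,
          ← Real.exp_sum]
        have : ∑ i, -((p : ℝ) * α i) = 0 := by
          rw [Finset.sum_neg_distrib, hsumα, neg_zero]
        rw [this, Real.exp_zero, mul_one]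
      have h2 : K * Real.exp (-(p * a₀)) / (K * Real.exp (-(p * (a₀ - gap)))) =
          Real.exp (-(p * gap)) := by
        rw [mul_div_mul_left _ _ hK.ne', ← Real.exp_sub]
        congr 1
        ring
      rw [h1, h2]
      exact hP p hpP)
  -- the minimal polynomial
  obtain ⟨ν, hν, hnu⟩ := exists_nu h0
  set σQ : Matrix (Fin d) (Fin d) ℚ := zq d σ with hσQ
  have hrQ : rQ d σQ = zr d σ := by
    ext i j
    rw [rQ_apply, hσQ, zq_apply, zr_apply]
    push_cast
    rfl
  -- the spans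
  have hspan : Submodule.span ℝ ((fun i => M i) '' (I : Set (Fin d))) =
      Submodule.span ℝ ((fun i => g i) '' (I : Set (Fin d))) := by
    have hle : Submodule.span ℝ ((fun i => M i) '' (I : Set (Fin d))) ≤
        Submodule.span ℝ ((fun i => g i) '' (I : Set (Fin d))) := by
      rw [Submodule.span_le]
      rintro _ ⟨i, hi, rfl⟩
      refine Submodule.span_mono ?_ (hT i)
      refine Set.image_mono ?_
      intro j hj
      have hj' : α i ≤ α j := hj
      exact (hI j).2 fun i' => ((hI i).1 hi i').trans hj'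
    have hrank : ∀ N : Matrix (Fin d) (Fin d) ℝ, N.det ≠ 0 →
        Module.finrank ℝ (Submodule.span ℝ ((fun i => N i) '' (I : Set (Fin d)))) = I.card := by
      intro N hN
      have hli : LinearIndependent ℝ (fun i => N i) := by
        have := Matrix.linearIndependent_rows_of_det_ne_zero hN
        exact this
      have hli2 : LinearIndependent ℝ (fun i : I => N i) := hli.comp _ Subtype.val_injective
      have hset : ((fun i => N i) '' (I : Set (Fin d))) = Set.range (fun i : I => N i) := by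
        ext v
        constructor
        · rintro ⟨i, hi, rfl⟩
          exact ⟨⟨i, hi⟩, rfl⟩
        · rintro ⟨i, rfl⟩
          exact ⟨i, i.2, rfl⟩
      rw [hset, finrank_span_eq_card hli2, Fintype.card_coe]
    exact Submodule.eq_of_le_of_finrank_eq hle (by rw [hrank M hM, hrank g hg])
  have hinv : ∀ i ∈ I, g i ᵥ* rQ d σQ ∈ Submodule.span ℝ ((fun i => g i) '' (I : Set (Fin d))) := by
    have h1 : ∀ i ∈ I, M i ᵥ* rQ d σQ ∈ Submodule.span ℝ ((fun i => M i) '' (I : Set (Fin d))) := by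
      intro i hi
      have h2 : M i ᵥ* rQ d σQ = (cj M (zr d σ) * M) i := by
        rw [hrQ]
        unfold cj
        rw [Matrix.mul_assoc, Matrix.nonsing_inv_mul _ hMu, Matrix.mul_one]
        rfl
      rw [h2]
      have h3 : (cj M (zr d σ) * M) i = ∑ j, cj M (zr d σ) i j • M j := by
        funext k
        rw [Matrix.mul_apply, Finset.sum_apply]
        rfl
      rw [h3]
      refine Submodule.sum_mem _ fun j _ => ?_
      by_cases hj : j ∈ I
      · exact Submodule.smul_mem _ _ (Submodule.subset_span ⟨j, hj, rfl⟩)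
      · rw [htri i hi j hj, zero_smul]
        exact Submodule.zero_mem _
    intro i hi
    have h2 : g i ∈ Submodule.span ℝ ((fun i => M i) '' (I : Set (Fin d))) := by
      rw [hspan]
      exact Submodule.subset_span ⟨i, hi, rfl⟩
    rw [← hspan]
    have h3 : ∀ v ∈ Submodule.span ℝ ((fun i => M i) '' (I : Set (Fin d))), v ᵥ* rQ d σQ ∈
        Submodule.span ℝ ((fun i => M i) '' (I : Set (Fin d))) := by
      intro v hv
      induction hv using Submodule.span_induction with
      | mem v hv =>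
        obtain ⟨l, hl, rfl⟩ := hv
        exact h1 l hl
      | zero => rw [zero_vecMul]; exact Submodule.zero_mem _
      | add v w _ _ hv hw => rw [add_vecMul]; exact Submodule.add_mem _ hv hw
      | smul c v _ hv => rw [smul_vecMul]; exact Submodule.smul_mem _ _ hv
    exact h3 _ h2
  obtain ⟨h'', hh'', hblk⟩ := decouple' hd0 hg hν hnu (subset_closure (mem_orb_self g)) I σQ hinv
  have hirr := irred_of_coprime hd0 hg hν hnu hh'' I hco σQ hblk
  obtain ⟨e, he, hed⟩ := charpoly_eq_pow σQ hirr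
  have hdvd := dvd_of_coprime G (fun i => i ∈ I) hGtri hcop
    (q := (minpoly ℚ σQ).map (algebraMap ℚ ℝ)) (e := e) (by
      rw [hchar, ← hrQ]
      have h1 : (rQ d σQ).charpoly = σQ.charpoly.map (algebraMap ℚ ℝ) := by
        rw [← Matrix.charpoly_map]; rfl
      rw [h1, he, Polynomial.map_pow])
  rw [Finset.filter_univ_mem] at hdvd
  have hdvd2 : e ∣ d := ⟨_, hed.symm⟩
  have he1 : e = 1 := Nat.eq_one_of_dvd_one (hco ▸ Nat.dvd_gcd hdvd hdvd2)
  rw [he1, one_mul] at hed
  exact (main_coprime hd hg (subset_closure (mem_orb_self g)) I ⟨i₀, hi₀I⟩ hI' hco σQ (Or.inl hed)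
    hinv).resolve_left h0

end Pool.Agent.H202.ST
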