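import Mathlib
import Pool.Agent.H202.ST.Main

/-!
# Algebraic flags, and words of linear complexity
-/

set_option autoImplicit false

open Finset Matrix Filter Topology

namespace Pool.Agent.H202.ST

variable {d : ℕ}

/-- the vectors of `S` with algebraic coordinates -/
def algPts (S : Submodule ℝ (Fin d → ℝ)) : Set (Fin d → ℝ) :=
  {v | v ∈ S ∧ ∀ j, IsAlgebraic ℚ (v j)}

/-- the vectors with algebraic coordinates as a subspace over `ℚ` -/
def algSub (S : Submodule ℝ (Fin d → ℝ)) : Submodule ℚ (Fin d → ℝ) where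
  carrier := algPts S
  add_mem' := fun {a b} ha hb => ⟨S.add_mem ha.1 hb.1, fun j => (ha.2 j).add (hb.2 j)⟩
  zero_mem' := ⟨S.zero_mem, fun _ => isAlgebraic_zero⟩
  smul_mem' := fun q a ha => ⟨by
    have : q • a = (q : ℝ) • a := by
      ext j
      simp [Rat.smul_def]
    rw [this]
    exact S.smul_mem _ ha.1, fun j => by
    rw [Pi.smul_apply]
    exact (ha.2 j).smul q⟩

/-- a space spanned by algebraic vectors contains a dense set of them -/
lemma dense_alg {S : Submodule ℝ (Fin d → ℝ)} (hS : S ≤ Submodule.span ℝ (algPts S))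
    {v : Fin d → ℝ} (hv : v ∈ S) : v ∈ closure (algPts S) := by
  have h1 := hS hv
  clear hv
  induction h1 using Submodule.span_induction with
  | mem v hv => exact subset_closure hv
  | zero => exact subset_closure (algSub S).zero_mem
  | add v w hv' hw' ihv ihw =>
    exact map_mem_closure₂ continuous_add ihv ihw
      fun a ha b hb => (algSub S).add_mem ha hb
  | smul c v hv' ih =>
    have hc : c ∈ closure (Set.range ((↑) : ℚ → ℝ)) := by
      rw [Rat.isDenseEmbedding_coe_real.dense.closure_eq]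
      exact Set.mem_univ _
    refine map_mem_closure₂ (f := fun (c : ℝ) (v : Fin d → ℝ) => c • v) continuous_smul hc ih
      fun a ha b hb => ?_
    obtain ⟨q, rfl⟩ := ha
    have := (algSub S).smul_mem q hb
    have h2 : q • b = (q : ℝ) • b := by
      ext j
      simp [Rat.smul_def]
    rw [h2] at this
    exact this

/-- an algebraic matrix adapted to an algebraic flag -/
lemma exists_flag {g : Matrix (Fin d) (Fin d) ℝ} (hg : g.det ≠ 0) {α : Fin d → ℝ}
    (hS : ∀ i, Submodule.span ℝ ((fun j => g j) '' {j | α i ≤ α j}) ≤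
      Submodule.span ℝ (algPts (Submodule.span ℝ ((fun j => g j) '' {j | α i ≤ α j})))) :
    ∃ M : Matrix (Fin d) (Fin d) ℝ, M.det ≠ 0 ∧ (∀ i j, IsAlgebraic ℚ (M i j)) ∧
      ∀ i, M i ∈ Submodule.span ℝ ((fun j => g j) '' {j | α i ≤ α j}) := by
  have h1 : ∀ i, ∃ u : ℕ → (Fin d → ℝ), (∀ n, u n ∈ algPts
      (Submodule.span ℝ ((fun j => g j) '' {j | α i ≤ α j}))) ∧ Tendsto u atTop (𝓝 (g i)) := by
    intro i
    have h2 : g i ∈ Submodule.span ℝ ((fun j => g j) '' {j | α i ≤ α j}) :=
      Submodule.subset_span ⟨i, le_refl (α i), rfl⟩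
    exact mem_closure_iff_seq_limit.1 (dense_alg (hS i) h2)
  choose u hu hlim using h1
  have h2 : Tendsto (fun n => (Matrix.of fun i => u i n : Matrix (Fin d) (Fin d) ℝ).det) atTop
      (𝓝 g.det) := by
    have h3 : Tendsto (fun n => (Matrix.of fun i => u i n : Matrix (Fin d) (Fin d) ℝ)) atTop
        (𝓝 g) := by
      refine tendsto_pi_nhds.2 fun i => ?_
      exact hlim i
    exact ((Continuous.matrix_det continuous_id).tendsto g).comp h3
  obtain ⟨n, hn⟩ := (h2.eventually_ne hg).exists
  exact ⟨Matrix.of fun i => u i n, hn, fun i j => (hu i n).2 j, fun i => (hu i n).1⟩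

/-- words with few blocks are repetitive -/
lemma repetitive_of_linear {A : Type*} {s : ℕ → A} {C : ℕ}
    (h : ∀ N₀ : ℕ, ∃ N, N₀ ≤ N ∧
      (Set.range fun n => fun k : Fin N => s (n + k)).encard ≤ ((C * N : ℕ) : ℕ∞)) :
    Repetitive s := by
  classical
  refine ⟨C, fun N₀ => ?_⟩
  obtain ⟨N, hN, hc⟩ := h N₀
  refine ⟨N, hN, ?_⟩
  set f : ℕ → (Fin N → A) := fun n => fun k : Fin N => s (n + k) with hf
  by_contra hcon
  push Not at hcon
  have hinj : Set.InjOn f (Finset.range (C * N + 1) : Set ℕ) := by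
    intro a ha b hb hab
    rw [Finset.coe_range, Set.mem_Iio] at ha hb
    by_contra hne
    rcases lt_or_gt_of_ne hne with h1 | h1
    · obtain ⟨k, hk, hk2⟩ := hcon a b h1 (by omega)
      exact hk2 (congrFun hab ⟨k, hk⟩)
    · obtain ⟨k, hk, hk2⟩ := hcon b a h1 (by omega)
      exact hk2 (congrFun hab ⟨k, hk⟩).symm
  have h2 := hinj.encard_image
  have h3 : (f '' (Finset.range (C * N + 1) : Set ℕ)).encard ≤ ((C * N : ℕ) : ℕ∞) :=
    (Set.encard_le_encard (Set.image_subset_range _ _)).trans hc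
  rw [h2, Set.encard_coe_eq_coe_finsetCard, Finset.card_range] at h3
  have : C * N + 1 ≤ C * N := by exact_mod_cast h3
  omega

end Pool.Agent.H202.ST
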