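import Mathlib

/-!
# Automatic sequences have linear complexity
-/

set_option autoImplicit false

namespace Pool.Agent.H202.ST

/-- words with a finite `k`-kernel have at most `C N` blocks of length `N` for `N = k ^ r` -/
lemma linear_of_automatic {A : Type*} {s : ℕ → A} {k : ℕ} (hk : 2 ≤ k)
    (hfin : {u : ℕ → A | ∃ r j, j < k ^ r ∧ ∀ n, u n = s (k ^ r * n + j)}.Finite) :
    ∃ C : ℕ, ∀ N₀ : ℕ, ∃ N, N₀ ≤ N ∧
      (Set.range fun n => fun k : Fin N => s (n + k)).encard ≤ ((C * N : ℕ) : ℕ∞) := by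
  classical
  set κ : Set (ℕ → A) := {u : ℕ → A | ∃ r j, j < k ^ r ∧ ∀ n, u n = s (k ^ r * n + j)} with hκ
  have hkpos : 0 < k := by omega
  have hrange : (Set.range s).Finite := by
    refine (hfin.image fun u => u 0).subset ?_
    rintro _ ⟨n, rfl⟩
    refine ⟨fun m => s (k ^ n * m + n), ⟨n, n, Nat.lt_pow_self (by omega), fun _ => rfl⟩, ?_⟩
    simp
  haveI : Finite κ := hfin
  have hvals : (Set.univ.pi fun _ : κ => Set.range s).Finite := Set.Finite.pi fun _ => hrange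
  set T := hvals.toFinset with hT
  set kr : ℕ → ℕ → κ := fun r j => ⟨fun n => s (k ^ r * n + j % k ^ r), r, j % k ^ r,
    Nat.mod_lt _ (pow_pos hkpos r), fun _ => rfl⟩ with hkr
  refine ⟨T.card * T.card, fun N₀ => ⟨k ^ N₀, (Nat.lt_pow_self (by omega)).le, ?_⟩⟩
  set Φ : ℕ × (κ → A) × (κ → A) → (Fin (k ^ N₀) → A) := fun x i =>
    if x.1 + i < k ^ N₀ then x.2.1 (kr N₀ (x.1 + i)) else x.2.2 (kr N₀ (x.1 + i)) with hΦ
  have hsub : (Set.range fun n => fun i : Fin (k ^ N₀) => s (n + i)) ⊆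
      Φ '' ((Finset.range (k ^ N₀) ×ˢ T ×ˢ T : Finset _) : Set (ℕ × (κ → A) × (κ → A))) := by
    rintro _ ⟨n, rfl⟩
    have hmemT : ∀ q : ℕ, (fun u : κ => u.1 q) ∈ T := by
      intro q
      rw [hT, Set.Finite.mem_toFinset]
      intro u _
      obtain ⟨u, r, j, hj, hu⟩ := u
      exact ⟨k ^ r * q + j, (hu q).symm⟩
    refine ⟨(n % k ^ N₀, fun u => u.1 (n / k ^ N₀), fun u => u.1 (n / k ^ N₀ + 1)), ?_, ?_⟩
    · rw [Finset.mem_coe, Finset.mem_product, Finset.mem_product]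
      exact ⟨Finset.mem_range.2 (Nat.mod_lt _ (pow_pos hkpos _)), hmemT _, hmemT _⟩
    · funext i
      have h1 := Nat.div_add_mod n (k ^ N₀)
      have h2 : n % k ^ N₀ < k ^ N₀ := Nat.mod_lt _ (pow_pos hkpos _)
      have h3 := i.2
      simp only [hΦ, hkr]
      split_ifs with h
      · rw [Nat.mod_eq_of_lt h]
        congr 1
        omega
      · have h4 : (n % k ^ N₀ + (i : ℕ)) % k ^ N₀ = n % k ^ N₀ + i - k ^ N₀ := by
          rw [Nat.mod_eq_sub_mod (not_lt.1 h), Nat.mod_eq_of_lt (by omega)]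
        rw [h4]
        congr 1
        rw [Nat.mul_add, Nat.mul_one]
        omega
  refine (Set.encard_le_encard hsub).trans ((Set.encard_image_le _ _).trans ?_)
  rw [Set.encard_coe_eq_coe_finsetCard, Finset.card_product, Finset.card_product,
    Finset.card_range, mul_comm]

end Pool.Agent.H202.ST
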